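import Mathlib

/-!
# The affine group of a commutative ring

`Aff R` is the group of maps `x ↦ u x + v` of `R`, with `u` a unit.
-/

set_option autoImplicit false

namespace Pool.Agent.Helper13.Spl

universe u v

/-- The affine map `x ↦ u x + v`. -/
@[ext] structure Aff (R : Type u) [CommRing R] where
  v : R
  u : Rˣ

namespace Aff

variable {R : Type u} [CommRing R]

instance : Mul (Aff R) := ⟨fun a b => ⟨a.v + a.u * b.v, a.u * b.u⟩⟩
instance : One (Aff R) := ⟨⟨0, 1⟩⟩
instance : Inv (Aff R) := ⟨fun a => ⟨-((a.u⁻¹ : Rˣ) : R) * a.v, a.u⁻¹⟩⟩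

@[simp] theorem mul_v (a b : Aff R) : (a * b).v = a.v + a.u * b.v := rfl
@[simp] theorem mul_u (a b : Aff R) : (a * b).u = a.u * b.u := rfl
@[simp] theorem one_v : (1 : Aff R).v = 0 := rfl
@[simp] theorem one_u : (1 : Aff R).u = 1 := rfl
@[simp] theorem inv_v (a : Aff R) : (a⁻¹).v = -((a.u⁻¹ : Rˣ) : R) * a.v := rfl
@[simp] theorem inv_u (a : Aff R) : (a⁻¹).u = a.u⁻¹ := rfl

instance : Group (Aff R) := Group.ofLeftAxioms
  (by
    intro a b c
    ext
    · simp only [mul_v, mul_u, Units.val_mul]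
      ring
    · simp only [mul_u, mul_assoc])
  (by
    intro a
    ext
    · simp
    · simp)
  (by
    intro a
    ext
    · simp only [mul_v, inv_v, inv_u, one_v]
      ring
    · simp)

theorem pow_u (a : Aff R) (k : ℕ) : (a ^ k).u = a.u ^ k := by
  induction k with
  | zero => simp
  | succ k ih => rw [pow_succ, mul_u, ih, pow_succ]

theorem pow_v (a : Aff R) (k : ℕ) :
    (a ^ k).v = (∑ l ∈ Finset.range k, (a.u : R) ^ l) * a.v := by
  induction k with
  | zero => simp
  | succ k ih =>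
    rw [pow_succ, mul_v, ih, pow_u, Finset.sum_range_succ, Units.val_pow_eq_pow_val]
    ring

theorem pow_v_of_u {a : Aff R} (h : a.u = 1) (k : ℕ) : (a ^ k).v = k * a.v := by
  rw [pow_v, h]
  simp

/-- conjugating a translation -/
theorem conj_v {a b : Aff R} (h : b.u = 1) : (a * b * a⁻¹).v = a.u * b.v := by
  simp only [mul_v, mul_u, inv_v, h, mul_one]
  have : (a.u : R) * ((a.u⁻¹ : Rˣ) : R) = 1 := by simp
  linear_combination (-a.v) * this

theorem conj_u {a b : Aff R} (h : b.u = 1) : (a * b * a⁻¹).u = 1 := by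
  simp [h]

/-- the translation part of the commutator `a b a⁻¹ b⁻¹` -/
theorem comm_v (a b : Aff R) : (a * b * a⁻¹ * b⁻¹).v = (1 - (b.u : R)) * a.v - (1 - (a.u : R)) * b.v := by
  have h1 : (a * b * a⁻¹ * b⁻¹) = (a * b) * (b * a)⁻¹ := by group
  rw [h1, mul_v, inv_v]
  simp only [mul_v, mul_u, mul_inv_rev, Units.val_mul]
  have h4 : ((a.u : R) * (b.u : R)) * (((a.u⁻¹ : Rˣ) : R) * ((b.u⁻¹ : Rˣ) : R)) = 1 := by
    have h2 : (a.u : R) * ((a.u⁻¹ : Rˣ) : R) = 1 := by simp
    have h3 : (b.u : R) * ((b.u⁻¹ : Rˣ) : R) = 1 := by simp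
    calc _ = ((a.u : R) * ((a.u⁻¹ : Rˣ) : R)) * ((b.u : R) * ((b.u⁻¹ : Rˣ) : R)) := by ring
      _ = 1 := by rw [h2, h3, one_mul]
  linear_combination (-(b.v + b.u * a.v)) * h4

theorem comm_u (a b : Aff R) : (a * b * a⁻¹ * b⁻¹).u = 1 := by
  simp only [mul_u, inv_u]
  rw [mul_comm a.u b.u]
  group

end Aff

/-- in characteristic `p`, the geometric sum of length `p` is a power -/
theorem geom_sum_char {R : Type u} [CommRing R] (p : ℕ) [hp : Fact p.Prime] [CharP R p] (x : R) :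
    ∑ l ∈ Finset.range p, x ^ l = (x - 1) ^ (p - 1) := by
  have key : ∑ l ∈ Finset.range p, (Polynomial.X : Polynomial (ZMod p)) ^ l =
      (Polynomial.X - 1) ^ (p - 1) := by
    have h1 : (Polynomial.X - 1 : Polynomial (ZMod p)) ≠ 0 := Polynomial.X_sub_C_ne_zero 1
    apply mul_right_cancel₀ h1
    rw [geom_sum_mul, ← pow_succ, Nat.sub_add_cancel hp.out.one_le]
    have := sub_pow_char (R := Polynomial (ZMod p)) (p := p) Polynomial.X 1
    rw [this, one_pow]
  have h2 := congrArg (Polynomial.eval₂ (ZMod.castHom (dvd_refl p) R) x) key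
  simpa [Polynomial.eval₂_finsetSum, Polynomial.eval₂_pow, Polynomial.eval₂_sub] using h2

end Pool.Agent.Helper13.Spl
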