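import Pool.Agent.Helper13.Spl.Core

/-!
# The order of a splitting automorphism on elementary abelian sections
-/

set_option autoImplicit false

namespace Pool.Agent.Helper13.Spl

universe u v

section defs

variable {G : Type u} [Group G]

/-- the standing situation: an invariant elementary abelian section `N0 / N1` of exponent `p`,
such that `G / N1` has exponent dividing `k`, a divisor of `n` -/
structure State (n p k : ℕ) (ε : MulAut G) (N0 N1 : Subgroup G) : Prop where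
  splits : Splits n ε
  inv0 : Inv ε N0
  inv1 : Inv ε N1
  prime : p.Prime
  sec : Sec p N0 N1
  kn : k ∣ n
  pk : p ∣ k
  pow : ∀ g : G, g ^ k ∈ N1

/-- `L` is the order of `ε` on `N0 / N1` -/
def Ord (ε : MulAut G) (N0 N1 : Subgroup G) (L : ℕ) : Prop :=
  ∀ j, (∀ x ∈ N0, (ε ^ j) x * x⁻¹ ∈ N1) ↔ L ∣ j

theorem State.ord_dvd {n p k : ℕ} {ε : MulAut G} {N0 N1 : Subgroup G}
    (h : State n p k ε N0 N1) {L : ℕ} (hL : Ord ε N0 N1 L) : L ∣ n := by
  rw [← hL]
  intro x _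
  rw [h.splits.pow_eq]
  simp

theorem State.next {n p k : ℕ} {ε : MulAut G} {N0 N1 : Subgroup G}
    (h : State n p k ε N0 N1) {s : ℕ} (hs : s.Prime) (hks : k * s ∣ n) :
    State n s (k * s) ε N1 (kerS s N1) where
  splits := h.splits
  inv0 := h.inv1
  inv1 := h.inv1.kerS s
  prime := hs
  sec := sec_kerS s N1
  kn := hks
  pk := dvd_mul_left s k
  pow := pow_mem_kerS h.pow

end defs

theorem exists_root {K : Type v} [Field K] [IsAlgClosed K] {m : ℕ} (hm : (m : K) ≠ 0) :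
    ∃ ω : K, IsPrimitiveRoot ω m := by
  have : NeZero (m : K) := ⟨hm⟩
  exact HasEnoughRootsOfUnity.exists_primitiveRoot K m

theorem exists_psi {K : Type v} [Field K] [IsAlgClosed K] {p : ℕ} [Fact p.Prime]
    (hp : (p : K) ≠ 0) :
    ∃ ψ : ZMod p → K, ψ 0 = 1 ∧ (∀ a b, ψ (a + b) = ψ a * ψ b) ∧ Function.Injective ψ := by
  obtain ⟨ζ, hζ⟩ := exists_root hp
  refine ⟨AddChar.zmodChar p hζ.pow_eq_one, AddChar.map_zero_eq_one _,
    AddChar.map_add_eq_mul _, ?_⟩
  intro a b hab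
  rw [AddChar.zmodChar_apply, AddChar.zmodChar_apply] at hab
  exact ZMod.val_injective p (hζ.pow_inj (ZMod.val_lt a) (ZMod.val_lt b) hab)

section layers

variable {G : Type u} [Group G] {K : Type v} [Field K]

/-- a regular character on the section -/
theorem State.exists_xi [IsAlgClosed K] {n p k : ℕ} {ε : MulAut G} {N0 N1 : Subgroup G}
    (h : State n p k ε N0 N1) {L : ℕ} (hL : Ord ε N0 N1 L) (hn : 0 < n) (hp : (p : K) ≠ 0) :
    ∃ ξ : G → K, CharOn N0 ξ ∧ (∀ x ∈ N1, ξ x = 1) ∧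
      ∀ j, (∀ g ∈ N0, ξ ((ε ^ j) g) = ξ g) ↔ L ∣ j := by
  have : Fact p.Prime := ⟨h.prime⟩
  have hLn := h.ord_dvd hL
  have hL0 : 0 < L := Nat.pos_of_dvd_of_pos hLn hn
  obtain ⟨χ, h1, h2, h3⟩ := exists_regular h.sec h.inv0 h.inv1 ((hL L).2 dvd_rfl) (by
    intro l hl hlL
    by_contra hcon
    push Not at hcon
    have h4 := Nat.le_of_dvd (Nat.div_pos (Nat.le_of_dvd hL0 hlL) hl.pos) ((hL (L / l)).1 hcon)
    exact absurd h4 (not_le.2 (Nat.div_lt_self hL0 hl.one_lt)))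
  obtain ⟨ψ, hψ0, hψa, hψi⟩ := exists_psi (K := K) hp
  refine ⟨fun x => ψ (χ x), ⟨by simp [h1.one, hψ0], fun x hx y hy => ?_⟩, fun x hx => ?_,
    fun j => ?_⟩
  · simp only [h1 x hx y hy, hψa]
  · simp only [h2 x hx, hψ0]
  · rw [← h3]
    constructor
    · intro h4 g hg
      exact hψi (h4 g hg)
    · intro h4 g hg
      simp only [h4 g hg]

theorem State.conj {n p k : ℕ} {ε : MulAut G} {N0 N1 : Subgroup G}
    (h : State n p k ε N0 N1) : ∀ g ∈ N0, ∀ x ∈ N1, g * x * g⁻¹ ∈ N1 :=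
  fun _ hg _ hx => h.sec.conj hg hx

/-- divisibility of the order on the next section -/
theorem State.next_ord {n p k : ℕ} {ε : MulAut G} {N0 N1 : Subgroup G}
    (h : State n p k ε N0 N1) {s : ℕ} [Fact s.Prime] [CharP K s] {L : ℕ} {ξ : G → K}
    (hreg : ∀ j, (∀ g ∈ N0, ξ ((ε ^ j) g) = ξ g) ↔ L ∣ j) {θ : G → K} (hθ : θ ∈ Vs N0 N1 ξ)
    (hne : θ ≠ 0) {μ : K} (hμ : ∀ x, θ ((ε ^ L) x) = μ * θ x) {L' : ℕ}
    (hL' : Ord ε N1 (kerS s N1) L') : L * orderOf μ ∣ L' := by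
  apply period_eigen h.inv0 h.inv1 h.conj hreg hθ hne hμ
  intro x hx
  have h1 := (hL' L').2 dvd_rfl x hx
  have h2 := kerS_eq_zero (A := K) (s := s) (by
    intro a
    rw [nsmul_eq_mul, CharP.cast_eq_zero, zero_mul]) hθ.1 h1
  have h3 : (ε ^ L') x ∈ N1 := (h.inv1.pow L' x).2 hx
  rw [hθ.1 _ h3 _ (N1.inv_mem hx), hθ.1.inv hx] at h2
  linear_combination h2

end layers

/-- eigenfunctions on the next layer -/
theorem State.exists_theta {X : Type u} [Nontrivial X] {n p k : ℕ} (hn : Squarefree n)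
    {ε : MulAut (Burn X n)} {N0 N1 : Subgroup (Burn X n)} (h : State n p k ε N0 N1) {L : ℕ}
    (hLn : L ∣ n) {s : ℕ} (hs : s.Prime) (hsL : s ∣ L) (hks : k * s ∣ n)
    {K : Type v} [Field K] [IsAlgClosed K] [CharP K s] {ξ : Burn X n → K} (hξ : CharOn N0 ξ)
    (hξ1 : ∀ x ∈ N1, ξ x = 1) (hreg : ∀ j, (∀ g ∈ N0, ξ ((ε ^ j) g) = ξ g) ↔ L ∣ j) :
    ((n / L : ℕ) : K) ≠ 0 ∧
    ∃ θ ∈ Vs N0 N1 ξ, θ ≠ 0 ∧ ∃ μ : K, μ ^ (n / L) = 1 ∧ μ ≠ 1 ∧
      ∀ x, θ ((ε ^ L) x) = μ * θ x := by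
  classical
  have hn0 : 0 < n := Nat.pos_of_ne_zero hn.ne_zero
  have hL0 : 0 < L := Nat.pos_of_dvd_of_pos hLn hn0
  have hm : ((n / L : ℕ) : K) ≠ 0 := by
    rw [Ne, CharP.cast_eq_zero_iff K s]
    intro hcon
    have h1 : s * s ∣ n := by
      have := mul_dvd_mul hsL hcon
      rwa [Nat.mul_div_cancel' hLn] at this
    exact hs.not_isUnit (hn s h1)
  refine ⟨hm, ?_⟩
  have hne : ∃ g ∈ N0, ξ g ≠ 1 := by
    by_contra hcon
    push Not at hcon
    have h1 : L ∣ 1 := by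
      rw [← hreg]
      intro g hg
      rw [hcon g hg, hcon]
      exact (h.inv0.pow 1 g).2 hg
    exact hs.one_lt.ne' (Nat.dvd_one.1 (hsL.trans h1))
  obtain ⟨δ, hδ, x, hx, hx0⟩ := exists_der hn0 hks h.pow
    (fun x hx y hy => h.sec.comm hx hy) h.sec.le hξ hξ1 hne
  have hδ1 : AddOn N1 δ := by
    intro a ha b hb
    rw [hδ a (h.sec.le ha) b (h.sec.le hb), hξ1 a ha, one_mul]
  have hV : ∃ θ ∈ Vs N0 N1 ξ, θ ≠ 0 := by
    refine ⟨fun y => if y ∈ N1 then δ y else 0, ⟨?_, ?_, ?_⟩, ?_⟩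
    · intro a ha b hb
      simp only [ha, hb, N1.mul_mem ha hb, if_true]
      exact hδ1 a ha b hb
    · intro y hy
      simp [hy]
    · intro g hg y hy
      simp only [hy, h.conj g hg y hy, if_true]
      have hy0 := h.sec.le hy
      have hgi := N0.inv_mem hg
      have h2 : ξ g * ξ g⁻¹ = 1 := by
        rw [← hξ.mul g hg _ hgi, mul_inv_cancel, hξ.one]
      have h3 : δ 1 = 0 := by
        have := hδ 1 N0.one_mem 1 N0.one_mem
        rw [mul_one, hξ.one, one_mul] at this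
        exact left_eq_add.1 this
      have h4 := hδ g hg g⁻¹ hgi
      rw [mul_inv_cancel, h3] at h4
      rw [hδ _ (N0.mul_mem hg hy0) _ hgi, hδ g hg y hy0, hξ.mul g hg y hy0, hξ1 y hy, mul_one]
      linear_combination -h4
    · intro hcon
      have := congrFun hcon x
      simp only [hx, if_true, Pi.zero_apply] at this
      exact hx0 this
  obtain ⟨ω, hω⟩ := exists_root (K := K) hm
  obtain ⟨θ, hθ, hθ0, μ, hμ1, hμ⟩ := exists_eigen h.inv0 h.inv1 hn0 h.splits.pow_eq hLn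
    ((hreg L).2 dvd_rfl) hm hω hV
  exact ⟨θ, hθ, hθ0, μ, hμ1, eigen_ne_one h.splits h.inv0 h.inv1 h.conj hξ hLn hL0 hreg hm hθ
    hθ0 hμ, hμ⟩

section count

theorem sf_dvd_mul {n a b : ℕ} (ha : a ∣ n) (hb : b.Prime) (hbn : b ∣ n)
    (h : ¬ b ∣ a) : a * b ∣ n :=
  Nat.Coprime.mul_dvd_of_dvd_of_dvd ((Nat.Prime.coprime_iff_not_dvd hb).2 h).symm ha hbn

theorem card_mul {n a b : ℕ} (hn : Squarefree n) (h : a * b ∣ n) :
    (a * b).primeFactors.card = a.primeFactors.card + b.primeFactors.card := by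
  have h1 := Nat.coprime_of_squarefree_mul (hn.squarefree_of_dvd h)
  rw [h1.primeFactors_mul, Finset.card_union_of_disjoint h1.disjoint_primeFactors]

theorem card_pos_of_ne_one {a : ℕ} (h0 : a ≠ 0) (h : a ≠ 1) : 1 ≤ a.primeFactors.card := by
  obtain ⟨p, hp, hpa⟩ := Nat.exists_prime_and_dvd h
  exact Finset.card_pos.2 ⟨p, Nat.mem_primeFactors.2 ⟨hp, hpa, h0⟩⟩

theorem card_le_of_dvd {a b : ℕ} (hb : b ≠ 0) (h : a ∣ b) :
    a.primeFactors.card ≤ b.primeFactors.card :=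
  Finset.card_le_card (Nat.primeFactors_mono h hb)

end count

/-- The number of primes dividing the order of a splitting automorphism on an elementary abelian
section `N0 / N1` is at most the number of primes dividing the exponent of `G / N1`. -/
theorem ahead {X : Type u} [Nontrivial X] {n : ℕ} (hn : Squarefree n) (m : ℕ) :
    ∀ {p k : ℕ} {ε : MulAut (Burn X n)} {N0 N1 : Subgroup (Burn X n)} {L : ℕ},
      n.primeFactors.card ≤ k.primeFactors.card + m → State n p k ε N0 N1 → Ord ε N0 N1 L →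
      L.primeFactors.card ≤ k.primeFactors.card := by
  have hn0 : n ≠ 0 := hn.ne_zero
  induction m with
  | zero =>
    intro p k ε N0 N1 L hm hst hL
    exact (card_le_of_dvd hn0 (hst.ord_dvd hL)).trans (by simpa using hm)
  | succ m ih =>
    intro p k ε N0 N1 L hm hst hL
    by_contra hcon
    have hLn := hst.ord_dvd hL
    have hL0 : L ≠ 0 := fun h => hn0 (Nat.eq_zero_of_zero_dvd (h ▸ hLn))
    have hk0 : k ≠ 0 := fun h => hn0 (Nat.eq_zero_of_zero_dvd (h ▸ hst.kn))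
    obtain ⟨s, hsL, hsk⟩ : ∃ s ∈ L.primeFactors, s ∉ k.primeFactors := by
      by_contra h1
      push Not at h1
      exact hcon (Finset.card_le_card h1)
    have hs : s.Prime := Nat.prime_of_mem_primeFactors hsL
    have hsdL : s ∣ L := Nat.dvd_of_mem_primeFactors hsL
    have hsdk : ¬ s ∣ k := fun h => hsk (Nat.mem_primeFactors.2 ⟨hs, h, hk0⟩)
    have : Fact s.Prime := ⟨hs⟩
    have hks : k * s ∣ n := sf_dvd_mul hst.kn hs (hsdL.trans hLn) hsdk
    let K := AlgebraicClosure (ZMod s)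
    have hp : ((p : ℕ) : K) ≠ 0 := by
      rw [Ne, CharP.cast_eq_zero_iff K s]
      intro h
      rw [(Nat.prime_dvd_prime_iff_eq hs hst.prime).1 h] at hsdk
      exact hsdk hst.pk
    obtain ⟨ξ, hξ, hξ1, hreg⟩ := hst.exists_xi (K := K) hL (Nat.pos_of_ne_zero hn0) hp
    obtain ⟨-, θ, hθ, hθ0, μ, hμ1, hμne, hμ⟩ :=
      hst.exists_theta hn hLn hs hsdL hks hξ hξ1 hreg
    obtain ⟨L', hL'n, hL'⟩ := exists_order (N1 := kerS s N1) hst.inv1 (Nat.pos_of_ne_zero hn0)
      hst.splits.pow_eq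
    have h1 : L * orderOf μ ∣ L' := hst.next_ord (s := s) hreg hθ hθ0 hμ hL'
    have hL'0 : L' ≠ 0 := fun h => hn0 (Nat.eq_zero_of_zero_dvd (h ▸ hL'n))
    have h2 : (L * orderOf μ).primeFactors.card ≤ L'.primeFactors.card := card_le_of_dvd hL'0 h1
    rw [card_mul hn (h1.trans hL'n)] at h2
    have h3 : 1 ≤ (orderOf μ).primeFactors.card := by
      apply card_pos_of_ne_one
      · intro h
        rw [h, mul_zero] at h1
        exact hL'0 (Nat.eq_zero_of_zero_dvd h1)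
      · rwa [Ne, orderOf_eq_one_iff]
    have h4 := card_mul hn hks
    rw [hs.primeFactors, Finset.card_singleton] at h4
    have h5 := ih (by omega) (hst.next hs hks) hL'
    omega

/-- the same without the induction parameter -/
theorem State.ahead {X : Type u} [Nontrivial X] {n p k : ℕ} (hn : Squarefree n)
    {ε : MulAut (Burn X n)} {N0 N1 : Subgroup (Burn X n)} {L : ℕ} (h : State n p k ε N0 N1)
    (hL : Ord ε N0 N1 L) : L.primeFactors.card ≤ k.primeFactors.card :=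
  Spl.ahead hn n.primeFactors.card (by omega) h hL

end Pool.Agent.Helper13.Spl
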