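import Pool.Agent.Helper13.Spl.Reg

/-!
# Equivariant additive functions on a subgroup of a free Burnside group
-/

set_option autoImplicit false

namespace Pool.Agent.Helper13.Spl

universe u v

section dedekind

variable {G : Type u} [Group G] {K : Type v} [Field K]

/-- `ξ` is a character of `N` -/
structure CharOn (N : Subgroup G) (ξ : G → K) : Prop where
  one : ξ 1 = 1
  mul : ∀ x ∈ N, ∀ y ∈ N, ξ (x * y) = ξ x * ξ y

theorem CharOn.ne_zero {N : Subgroup G} {ξ : G → K} (h : CharOn N ξ) {x : G} (hx : x ∈ N) :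
    ξ x ≠ 0 := by
  intro h0
  have h1 := h.mul x hx x⁻¹ (N.inv_mem hx)
  rw [mul_inv_cancel, h.one, h0, zero_mul] at h1
  exact one_ne_zero h1

theorem CharOn.comp {N : Subgroup G} {ξ : G → K} (h : CharOn N ξ) {ε : MulAut G}
    (hε : Inv ε N) : CharOn N (fun x => ξ (ε x)) := by
  refine ⟨by simp [h.one], fun x hx y hy => ?_⟩
  simp only [map_mul]
  exact h.mul _ ((hε x).2 hx) _ ((hε y).2 hy)

/-- the monoid homomorphism of a character -/
def CharOn.hom {N : Subgroup G} {ξ : G → K} (h : CharOn N ξ) : N →* K where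
  toFun x := ξ x
  map_one' := h.one
  map_mul' x y := h.mul _ x.2 _ y.2

theorem dedekind {N : Subgroup G} {L : ℕ} {ξ : ℕ → G → K} (hξ : ∀ i < L, CharOn N (ξ i))
    (hinj : ∀ i < L, ∀ j < L, (∀ g ∈ N, ξ i g = ξ j g) → i = j) {c : ℕ → K}
    (hc : ∀ g ∈ N, ∑ i ∈ Finset.range L, ξ i g * c i = 0) : ∀ i < L, c i = 0 := by
  let F : Fin L → (N →* K) := fun i => (hξ i i.2).hom
  have hF : Function.Injective F := by
    intro i j hij
    apply Fin.ext
    apply hinj i i.2 j j.2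
    intro g hg
    exact DFunLike.congr_fun hij ⟨g, hg⟩
  have h1 := (linearIndependent_monoidHom N K).comp F hF
  rw [Fintype.linearIndependent_iff] at h1
  intro i hi
  refine h1 (fun i => c i) ?_ ⟨i, hi⟩
  funext g
  have h2 := hc g g.2
  rw [Finset.sum_range] at h2
  simp only [Finset.sum_apply, Pi.smul_apply, Function.comp_apply, smul_eq_mul, Pi.zero_apply]
  rw [← h2]
  apply Finset.sum_congr rfl
  intro j _
  exact mul_comm _ _

end dedekind

/-- eigenvector decomposition of an operator of finite order -/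
theorem eigen_decomp {K : Type v} [Field K] {V : Type u} [AddCommGroup V] [Module K V]
    (T : V →ₗ[K] V) {m : ℕ} (hm : 0 < m) (hmK : (m : K) ≠ 0) {ω : K} (hω : IsPrimitiveRoot ω m)
    (W : Submodule K V) (hW : ∀ x ∈ W, T x ∈ W) (hT : ∀ x ∈ W, (T ^ m) x = x) {x : V}
    (hx : x ∈ W) :
    ∃ f : ℕ → V, (∀ j, f j ∈ W) ∧ (∀ j, T (f j) = ω ^ j • f j) ∧
      ∑ j ∈ Finset.range m, f j = x := by
  have hTi : ∀ i, (T ^ i) x ∈ W := by
    intro i
    induction i with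
    | zero => simpa using hx
    | succ i ih =>
      rw [pow_succ', Module.End.mul_apply]
      exact hW _ ih
  have hω0 : ω ≠ 0 := hω.ne_zero hm.ne'
  let g : ℕ → ℕ → V := fun j i => ((ω⁻¹) ^ (i * j)) • (T ^ i) x
  refine ⟨fun j => (m : K)⁻¹ • ∑ i ∈ Finset.range m, g j i, ?_, ?_, ?_⟩
  · intro j
    exact W.smul_mem _ (W.sum_mem fun i _ => W.smul_mem _ (hTi i))
  · intro j
    have h1 : ∀ i, T (g j i) = ω ^ j • g j (i + 1) := by
      intro i
      simp only [g]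
      rw [map_smul, pow_succ' T, Module.End.mul_apply, smul_smul]
      congr 1
      rw [add_mul, one_mul, pow_add, mul_left_comm, ← mul_pow, mul_inv_cancel₀ hω0, one_pow,
        mul_one]
    have h2 : g j m = g j 0 := by
      simp only [g]
      rw [hT x hx, mul_comm m j, pow_mul, pow_right_comm, inv_pow, hω.pow_eq_one]
      simp
    have h3 : ∑ i ∈ Finset.range m, g j (i + 1) = ∑ i ∈ Finset.range m, g j i := by
      have h4 := Finset.sum_range_succ (g j) m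
      rw [Finset.sum_range_succ', h2, add_left_inj] at h4
      exact h4
    rw [map_smul, map_sum]
    simp only [h1]
    rw [← Finset.smul_sum, h3, smul_comm]
  · rw [← Finset.smul_sum, Finset.sum_comm]
    have h1 : ∀ i ∈ Finset.range m, ∑ j ∈ Finset.range m, g j i =
        if i = 0 then (m : K) • x else 0 := by
      intro i hi
      rw [Finset.mem_range] at hi
      simp only [g]
      rw [← Finset.sum_smul]
      split_ifs with h0
      · subst h0
        simp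
      · have h2 : (ω⁻¹) ^ i ≠ 1 := by
          rw [inv_pow, Ne, inv_eq_one]
          exact hω.pow_ne_one_of_pos_of_lt h0 hi
        have h3 : ∑ j ∈ Finset.range m, (ω⁻¹) ^ (i * j) = 0 := by
          have ha : ((ω⁻¹) ^ i) ^ m = 1 := by
            rw [← pow_mul, mul_comm, pow_mul, inv_pow, hω.pow_eq_one, inv_one, one_pow]
          have h4 := mul_neg_geom_sum ((ω⁻¹) ^ i) m
          rw [ha, sub_self] at h4
          rcases mul_eq_zero.1 h4 with h5 | h5
          · exact absurd (sub_eq_zero.1 h5).symm h2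
          · simpa [pow_mul] using h5
        rw [h3, zero_smul]
    rw [Finset.sum_congr rfl h1, Finset.sum_ite_eq', if_pos (Finset.mem_range.2 hm), smul_smul,
      inv_mul_cancel₀ hmK, one_smul]

section der

/-- the projection of the affine group to the units -/
def Aff.uHom (R : Type v) [CommRing R] : Aff R →* Rˣ where
  toFun a := a.u
  map_one' := rfl
  map_mul' _ _ := rfl

theorem exists_der {X : Type u} [Nontrivial X] {n : ℕ} (hn : 0 < n)
    {N0 N1 : Subgroup (Burn X n)} {k s : ℕ} (hks : k * s ∣ n) (hk : ∀ g : Burn X n, g ^ k ∈ N1)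
    (hcomm : ∀ x ∈ N0, ∀ y ∈ N0, x * y * x⁻¹ * y⁻¹ ∈ N1) (hle : N1 ≤ N0) {K : Type v} [Field K]
    [CharP K s] {ξ : Burn X n → K} (hξ : CharOn N0 ξ) (hξ1 : ∀ x ∈ N1, ξ x = 1)
    (hne : ∃ g ∈ N0, ξ g ≠ 1) :
    ∃ δ : Burn X n → K, (∀ x ∈ N0, ∀ y ∈ N0, δ (x * y) = δ x + ξ x * δ y) ∧
      ∃ x ∈ N1, δ x ≠ 0 := by
  classical
  have hkn : k ∣ n := (dvd_mul_right k s).trans hks
  have hk0 : 0 < k := Nat.pos_of_dvd_of_pos hkn hn
  obtain ⟨I, _, q, hq, hker⟩ := pres.{u, v} hn N0 hkn fun g => hle (hk g)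
  have hqN : ∀ w, q w ∈ N0 := by
    intro w
    rw [← hq]
    exact ⟨w, rfl⟩
  let ξt : FreeGroup I →* Kˣ :=
    FreeGroup.lift fun i => Units.mk0 (ξ (q (FreeGroup.of i))) (hξ.ne_zero (hqN _))
  let ξ2 : FreeGroup I →* K :=
    { toFun := fun w => ξ (q w)
      map_one' := by rw [map_one, hξ.one]
      map_mul' := fun a b => by rw [map_mul]; exact hξ.mul _ (hqN a) _ (hqN b) }
  have hξt : ∀ w, ((ξt w : Kˣ) : K) = ξ (q w) := by
    have h1 : (Units.coeHom K).comp ξt = ξ2 := by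
      apply FreeGroup.ext_hom
      intro i
      simp [ξt, ξ2]
    intro w
    exact DFunLike.congr_fun h1 w
  obtain ⟨i0, hi0⟩ : ∃ i, ξ (q (FreeGroup.of i)) ≠ 1 := by
    by_contra hcon
    push Not at hcon
    have h1 : ξ2 = 1 := by
      apply FreeGroup.ext_hom
      intro i
      simp [ξ2, hcon]
    obtain ⟨g, hg, hg1⟩ := hne
    rw [← hq] at hg
    obtain ⟨w, rfl⟩ := hg
    exact hg1 (DFunLike.congr_fun h1 w)
  obtain ⟨i1, hi1⟩ := exists_ne i0
  let ρ : FreeGroup I →* Aff K :=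
    FreeGroup.lift fun i => ⟨if i = i1 then 1 else 0, ξt (FreeGroup.of i)⟩
  have hρu : ∀ w, (ρ w).u = ξt w := by
    have h1 : (Aff.uHom K).comp ρ = ξt := by
      apply FreeGroup.ext_hom
      intro i
      simp [ρ, Aff.uHom]
    intro w
    exact DFunLike.congr_fun h1 w
  have hkill : ∀ w, q w = 1 → ρ w = 1 := by
    apply hker
    rintro w ⟨g, hg⟩
    have h1 : (ρ w).u = 1 := by
      rw [hρu]
      apply Units.ext
      rw [hξt, hg, Units.val_one]
      exact hξ1 _ (hk g)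
    ext
    · rw [Aff.pow_v_of_u h1]
      have h2 : ((n / k : ℕ) : K) = 0 := by
        rw [CharP.cast_eq_zero_iff K s]
        exact (Nat.dvd_div_iff_mul_dvd hkn).2 hks
      rw [h2, zero_mul, Aff.one_v]
    · rw [Aff.pow_u, h1, one_pow, Aff.one_u]
  obtain ⟨r, hr⟩ := descend q ρ hkill
  refine ⟨fun x => (r x).v, ?_, ?_⟩
  · intro x hx y hy
    rw [← hq] at hx hy
    obtain ⟨a, rfl⟩ := hx
    obtain ⟨b, rfl⟩ := hy
    change (r (q a * q b)).v = (r (q a)).v + ξ (q a) * (r (q b)).v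
    rw [← map_mul, hr, hr, hr, map_mul, Aff.mul_v, hρu, hξt]
  · refine ⟨q (FreeGroup.of i0 * FreeGroup.of i1 * (FreeGroup.of i0)⁻¹ * (FreeGroup.of i1)⁻¹),
      ?_, ?_⟩
    · simp only [map_mul, map_inv]
      exact hcomm _ (hqN _) _ (hqN _)
    · change (r (q _)).v ≠ 0
      rw [hr]
      simp only [map_mul, map_inv]
      rw [Aff.comm_v, hρu, hρu, hξt, hξt]
      have h0 : (ρ (FreeGroup.of i0)).v = 0 := by simp [ρ, Ne.symm hi1]
      have h1 : (ρ (FreeGroup.of i1)).v = 1 := by simp [ρ]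
      rw [h0, h1, mul_zero, mul_one, zero_sub, neg_ne_zero, sub_ne_zero]
      exact Ne.symm hi0

end der

section spaces

variable {G : Type u} [Group G] {K : Type v} [Field K]

/-- the space of `ξ`-equivariant additive functions on `N1`, extended by zero -/
def Vs (N0 N1 : Subgroup G) (ξ : G → K) : Submodule K (G → K) where
  carrier := {θ | AddOn N1 θ ∧ (∀ x, x ∉ N1 → θ x = 0) ∧
    ∀ g ∈ N0, ∀ x ∈ N1, θ (g * x * g⁻¹) = ξ g * θ x}
  add_mem' := by
    rintro a b ⟨ha, ha1, ha2⟩ ⟨hb, hb1, hb2⟩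
    refine ⟨fun x hx y hy => ?_, fun x hx => ?_, fun g hg x hx => ?_⟩
    · simp only [Pi.add_apply, ha x hx y hy, hb x hx y hy]
      ring
    · simp [ha1 x hx, hb1 x hx]
    · simp only [Pi.add_apply, ha2 g hg x hx, hb2 g hg x hx]
      ring
  zero_mem' := ⟨fun x _ y _ => by simp, fun _ _ => rfl, fun g _ x _ => by simp⟩
  smul_mem' := by
    rintro c a ⟨ha, ha1, ha2⟩
    refine ⟨fun x hx y hy => ?_, fun x hx => ?_, fun g hg x hx => ?_⟩
    · simp only [Pi.smul_apply, smul_eq_mul, ha x hx y hy]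
      ring
    · simp [ha1 x hx]
    · simp only [Pi.smul_apply, smul_eq_mul, ha2 g hg x hx]
      ring

theorem mem_Vs {N0 N1 : Subgroup G} {ξ : G → K} {θ : G → K} : θ ∈ Vs N0 N1 ξ ↔
    AddOn N1 θ ∧ (∀ x, x ∉ N1 → θ x = 0) ∧
      ∀ g ∈ N0, ∀ x ∈ N1, θ (g * x * g⁻¹) = ξ g * θ x := Iff.rfl

/-- composition with an automorphism, as a linear map -/
def compLin (K : Type v) [Field K] (ε : MulAut G) : (G → K) →ₗ[K] (G → K) where
  toFun f := fun x => f (ε x)
  map_add' _ _ := rfl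
  map_smul' _ _ := rfl

theorem compLin_pow (ε : MulAut G) (k : ℕ) (f : G → K) :
    (compLin K ε ^ k) f = fun x => f ((ε ^ k) x) := by
  induction k generalizing f with
  | zero => rfl
  | succ k ih =>
    rw [pow_succ, Module.End.mul_apply, ih]
    funext x
    rw [pow_succ' ε]
    rfl

theorem Vs.comp {N0 N1 : Subgroup G} {ξ : G → K} {ε : MulAut G} (h0 : Inv ε N0)
    (h1 : Inv ε N1) {θ : G → K} (h : θ ∈ Vs N0 N1 ξ) :
    (fun x => θ (ε x)) ∈ Vs N0 N1 (fun g => ξ (ε g)) := by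
  obtain ⟨ha, ha1, ha2⟩ := h
  refine ⟨ha.comp h1, fun x hx => ha1 _ ?_, fun g hg x hx => ?_⟩
  · rwa [h1]
  · simp only [map_mul, map_inv]
    exact ha2 _ ((h0 g).2 hg) _ ((h1 x).2 hx)

/-- existence of an eigenvector in the space of equivariant functions -/
theorem exists_eigen {N0 N1 : Subgroup G} {ξ : G → K} {ε : MulAut G} (h0 : Inv ε N0)
    (h1 : Inv ε N1) {n L : ℕ} (hn : 0 < n) (hε : ε ^ n = 1) (hLn : L ∣ n)
    (hξL : ∀ g ∈ N0, ξ ((ε ^ L) g) = ξ g) (hm : ((n / L : ℕ) : K) ≠ 0)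
    {ω : K} (hω : IsPrimitiveRoot ω (n / L)) (hV : ∃ θ ∈ Vs N0 N1 ξ, θ ≠ 0) :
    ∃ θ ∈ Vs N0 N1 ξ, θ ≠ 0 ∧ ∃ μ : K, μ ^ (n / L) = 1 ∧ ∀ x, θ ((ε ^ L) x) = μ * θ x := by
  have hmpos : 0 < n / L := Nat.div_pos (Nat.le_of_dvd hn hLn)
    (Nat.pos_of_dvd_of_pos hLn hn)
  obtain ⟨θ0, hθ0, hne⟩ := hV
  have hinv : ∀ θ ∈ Vs N0 N1 ξ, compLin K (ε ^ L) θ ∈ Vs N0 N1 ξ := by
    intro θ hθ
    have h2 := Vs.comp (h0.pow L) (h1.pow L) hθ
    obtain ⟨a, b, c⟩ := h2
    refine ⟨a, b, fun g hg x hx => ?_⟩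
    have h3 := c g hg x hx
    simp only [hξL g hg] at h3
    exact h3
  obtain ⟨f, hf1, hf2, hf3⟩ := eigen_decomp (compLin K (ε ^ L)) hmpos hm hω (Vs N0 N1 ξ) hinv
    (by
      intro θ _
      rw [compLin_pow]
      funext x
      rw [← pow_mul, Nat.mul_div_cancel' hLn, hε, MulAut.one_apply]) hθ0
  obtain ⟨j, -, hj⟩ : ∃ j ∈ Finset.range (n / L), f j ≠ 0 := by
    by_contra hcon
    push Not at hcon
    apply hne
    rw [← hf3]
    exact Finset.sum_eq_zero hcon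
  refine ⟨f j, hf1 j, hj, ω ^ j, ?_, fun x => ?_⟩
  · rw [← pow_mul, mul_comm, pow_mul, hω.pow_eq_one, one_pow]
  · exact congrFun (hf2 j) x

theorem Vs.exists_ne {N0 N1 : Subgroup G} {ξ : G → K} {θ : G → K} (h : θ ∈ Vs N0 N1 ξ)
    (hne : θ ≠ 0) : ∃ x ∈ N1, θ x ≠ 0 := by
  by_contra hcon
  push Not at hcon
  apply hne
  funext x
  by_cases hx : x ∈ N1
  · exact hcon x hx
  · exact h.2.1 x hx

theorem sum_twist {K : Type v} [Field K] {f : ℕ → K} {L : ℕ} {μ : K}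
    (hf : ∀ i, f (i + L) = μ * f i) (m : ℕ) :
    ∑ i ∈ Finset.range (L * m), f i =
      (∑ j ∈ Finset.range m, μ ^ j) * ∑ i ∈ Finset.range L, f i := by
  have hf2 : ∀ m i, f (i + L * m) = μ ^ m * f i := by
    intro m
    induction m with
    | zero => intro i; simp
    | succ m ih =>
      intro i
      rw [Nat.mul_succ, ← add_assoc, hf, ih, pow_succ]
      ring
  induction m with
  | zero => simp
  | succ m ih =>
    rw [Nat.mul_succ, Finset.sum_range_add, ih, Finset.sum_range_succ _ m, add_mul,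
      Finset.mul_sum (Finset.range L) f (μ ^ m)]
    congr 1
    apply Finset.sum_congr rfl
    intro i _
    rw [add_comm, hf2]

omit [Field K] in
/-- shifted characters are distinct -/
theorem shift_inj {N0 : Subgroup G} {ξ : G → K} {ε : MulAut G} (h0 : Inv ε N0) {L : ℕ}
    (hreg : ∀ j, (∀ g ∈ N0, ξ ((ε ^ j) g) = ξ g) ↔ L ∣ j) {i j : ℕ} (hi : i < L) (hj : j < L)
    (h : ∀ g ∈ N0, ξ ((ε ^ i) g) = ξ ((ε ^ j) g)) : i = j := by
  wlog hij : i ≤ j generalizing i j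
  · exact (this hj hi (fun g hg => (h g hg).symm) (le_of_not_ge hij)).symm
  have h1 : L ∣ j - i := by
    rw [← hreg]
    intro g hg
    obtain ⟨g', rfl⟩ := (ε ^ i).surjective g
    rw [h0.pow i] at hg
    rw [h g' hg, ← MulAut.mul_apply, ← pow_add, Nat.sub_add_cancel hij]
  have h2 : j - i = 0 := Nat.eq_zero_of_dvd_of_lt h1 (by omega)
  omega

/-- the norm condition excludes the eigenvalue one -/
theorem eigen_ne_one {n : ℕ} {ε : MulAut G} (hs : Splits n ε) {N0 N1 : Subgroup G}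
    (h0 : Inv ε N0) (h1 : Inv ε N1) (hconj : ∀ g ∈ N0, ∀ x ∈ N1, g * x * g⁻¹ ∈ N1)
    {ξ : G → K} (hξ : CharOn N0 ξ) {L : ℕ} (hLn : L ∣ n) (hL0 : 0 < L)
    (hreg : ∀ j, (∀ g ∈ N0, ξ ((ε ^ j) g) = ξ g) ↔ L ∣ j) (hm : ((n / L : ℕ) : K) ≠ 0)
    {θ : G → K} (hθ : θ ∈ Vs N0 N1 ξ) (hne : θ ≠ 0) {μ : K}
    (hμ : ∀ x, θ ((ε ^ L) x) = μ * θ x) : μ ≠ 1 := by
  rintro rfl
  obtain ⟨x, hx, hx0⟩ := Vs.exists_ne hθ hne
  apply hx0
  have key : ∀ y ∈ N1, ∑ i ∈ Finset.range L, θ ((ε ^ i) y) = 0 := by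
    intro y hy
    have h2 := hs.sum_eq hθ.1 h1 hy
    have h3 := sum_twist (f := fun i => θ ((ε ^ i) y)) (L := L) (μ := 1) (by
      intro i
      rw [add_comm, pow_add, MulAut.mul_apply, hμ]) (n / L)
    rw [Nat.mul_div_cancel' hLn] at h3
    rw [h3] at h2
    rcases mul_eq_zero.1 h2 with h4 | h4
    · simp only [one_pow, Finset.sum_const, Finset.card_range, nsmul_eq_mul, mul_one] at h4
      exact absurd h4 hm
    · exact h4
  have h4 := dedekind (L := L) (ξ := fun i g => ξ ((ε ^ i) g)) (c := fun i => θ ((ε ^ i) x))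
    (fun i _ => hξ.comp (h0.pow i)) (fun i hi j hj h => shift_inj h0 hreg hi hj h) (by
      intro g hg
      rw [← key _ (hconj g hg x hx)]
      apply Finset.sum_congr rfl
      intro i _
      simp only [map_mul, map_inv]
      exact (hθ.2.2 _ ((h0.pow i g).2 hg) _ ((h1.pow i x).2 hx)).symm)
  simpa using h4 0 hL0

/-- divisibility: periods of an eigenfunction -/
theorem period_eigen {ε : MulAut G} {N0 N1 : Subgroup G}
    (h0 : Inv ε N0) (h1 : Inv ε N1) (hconj : ∀ g ∈ N0, ∀ x ∈ N1, g * x * g⁻¹ ∈ N1)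
    {ξ : G → K} {L : ℕ}
    (hreg : ∀ j, (∀ g ∈ N0, ξ ((ε ^ j) g) = ξ g) ↔ L ∣ j)
    {θ : G → K} (hθ : θ ∈ Vs N0 N1 ξ) (hne : θ ≠ 0) {μ : K}
    (hμ : ∀ x, θ ((ε ^ L) x) = μ * θ x) {j : ℕ} (hj : ∀ x ∈ N1, θ ((ε ^ j) x) = θ x) :
    L * orderOf μ ∣ j := by
  obtain ⟨x, hx, hx0⟩ := Vs.exists_ne hθ hne
  have h2 : L ∣ j := by
    rw [← hreg]
    intro g hg
    have h3 := hj _ (hconj g hg x hx)
    simp only [map_mul, map_inv] at h3
    rw [hθ.2.2 _ ((h0.pow j g).2 hg) _ ((h1.pow j x).2 hx), hj x hx, hθ.2.2 g hg x hx] at h3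
    exact mul_right_cancel₀ hx0 h3
  obtain ⟨m, rfl⟩ := h2
  apply mul_dvd_mul_left
  apply orderOf_dvd_of_pow_eq_one
  have h4 : ∀ m, θ ((ε ^ (L * m)) x) = μ ^ m * θ x := by
    intro m
    induction m with
    | zero => simp
    | succ m ih =>
      rw [Nat.mul_succ, add_comm, pow_add, MulAut.mul_apply, hμ, ih, pow_succ]
      ring
  have h5 := hj x hx
  rw [h4] at h5
  exact mul_right_cancel₀ hx0 (by rw [h5, one_mul])

end spaces

end Pool.Agent.Helper13.Spl
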