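import Pool.Agent.Helper13.Spl.StepD

/-!
# Splitting automorphisms of free Burnside groups of odd squarefree exponent
-/

set_option autoImplicit false

namespace Pool.Agent.Helper13.Spl

universe u

/-- In odd squarefree exponent, splitting automorphisms act trivially on the abelianization. -/
theorem Splits.acts_trivially {X : Type u} [Nontrivial X] {n : ℕ} (hn : Squarefree n)
    (hodd : Odd n) {φ : MulAut (Burn X n)} (hφ : Splits n φ) (b : Burn X n) :
    φ b * b⁻¹ ∈ commutator (Burn X n) := by
  apply mem_commutator_of_kerS hn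
  intro q hq hqn
  have hn0 : 0 < n := Nat.pos_of_ne_zero hn.ne_zero
  have hst := State.base hφ hq hqn
  obtain ⟨L, hLn, hL⟩ := exists_order (N1 := kerS q (⊤ : Subgroup (Burn X n))) hst.inv0 hn0
    hφ.pow_eq
  have hL0 : L ≠ 0 := fun h => hn.ne_zero (Nat.eq_zero_of_zero_dvd (h ▸ hLn))
  have h1 := hst.ahead hn hL
  rw [hq.primeFactors, Finset.card_singleton] at h1
  by_cases hL1 : L = 1
  · have h2 := (hL 1).2 (by rw [hL1]) b trivial
    rwa [pow_one] at h2
  · exfalso
    have h2 := card_pos_of_ne_one hL0 hL1
    have hLp : L.Prime := prime_of_card_one hn hLn (by omega)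
    rcases lt_trichotomy L q with h3 | h3 | h3
    · exact stepB2 hn hodd hφ hq hqn hLp h3 hL
    · subst h3
      exact stepD hn hodd hφ hq hqn hL
    · refine chain hn hodd n.primeFactors.card (by omega) hst hL ?_ hLp dvd_rfl ?_
      · rw [hq.primeFactors, hLp.primeFactors, Finset.card_singleton, Finset.card_singleton]
      · intro l hl hlq
        rwa [(Nat.prime_dvd_prime_iff_eq hl hq).1 hlq]

end Pool.Agent.Helper13.Spl
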