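import Pool.Agent.Helper13.Spl.Pres

/-!
# Splitting automorphisms
-/

set_option autoImplicit false

namespace Pool.Agent.Helper13.Spl

universe u v

variable {G : Type u} [Group G] {A : Type v} [AddCommGroup A]

/-- `u · ε(u) ⋯ ε^(k-1)(u)` -/
def nrm (ε : MulAut G) (k : ℕ) (u : G) : G := ((List.range k).map fun i => (ε ^ i) u).prod

@[simp] theorem nrm_zero (ε : MulAut G) (u : G) : nrm ε 0 u = 1 := rfl

theorem nrm_succ (ε : MulAut G) (k : ℕ) (u : G) : nrm ε (k + 1) u = nrm ε k u * (ε ^ k) u := by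
  simp [nrm, List.range_succ]

theorem nrm_succ' (ε : MulAut G) (k : ℕ) (u : G) :
    nrm ε (k + 1) u = u * ((List.range k).map fun i => (ε ^ (i + 1)) u).prod := by
  simp [nrm, List.range_succ_eq_map, Function.comp_def]

/-- splitting automorphisms: finite order condition and norm condition -/
structure Splits (n : ℕ) (ε : MulAut G) : Prop where
  pow_eq : ε ^ n = 1
  norm_eq : ∀ u, nrm ε n u = 1

theorem Splits.of_right {n : ℕ} {φ : MulAut G} (h1 : φ ^ n = 1)
    (h2 : ∀ b, ((List.range n).map fun i => (φ ^ (i + 1)) b).prod = 1) : Splits n φ := by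
  refine ⟨h1, fun u => ?_⟩
  have h3 := nrm_succ φ n u
  rw [nrm_succ', h2, h1, mul_one, MulAut.one_apply] at h3
  exact (mul_eq_right.1 h3.symm)

theorem conj_pow_aut (φ : MulAut G) (g : G) (k : ℕ) :
    (MulAut.conj g * φ) ^ k = MulAut.conj (nrm φ k g) * φ ^ k := by
  induction k with
  | zero => simp
  | succ k ih =>
    rw [pow_succ, ih, nrm_succ]
    ext x
    simp only [MulAut.mul_apply, MulAut.conj_apply, map_mul, map_inv, pow_succ, mul_inv_rev]

theorem nrm_conj (φ : MulAut G) (g u : G) (k : ℕ) :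
    nrm (MulAut.conj g * φ) k u * nrm φ k g = nrm φ k (u * g) := by
  induction k with
  | zero => simp
  | succ k ih =>
    rw [nrm_succ, nrm_succ, nrm_succ, ← ih, conj_pow_aut]
    simp only [MulAut.mul_apply, MulAut.conj_apply, map_mul]
    group

theorem Splits.conj {n : ℕ} {φ : MulAut G} (h : Splits n φ) (g : G) :
    Splits n (MulAut.conj g * φ) := by
  refine ⟨?_, fun u => ?_⟩
  · rw [conj_pow_aut, h.norm_eq, h.pow_eq]
    simp
  · have h1 := nrm_conj φ g u n
    rw [h.norm_eq, h.norm_eq, mul_one] at h1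
    exact h1

/-- `θ` is additive on `N` -/
def AddOn (N : Subgroup G) (θ : G → A) : Prop := ∀ x ∈ N, ∀ y ∈ N, θ (x * y) = θ x + θ y

/-- `N` is invariant under `ε` -/
def Inv (ε : MulAut G) (N : Subgroup G) : Prop := ∀ x, ε x ∈ N ↔ x ∈ N

theorem Inv.pow {ε : MulAut G} {N : Subgroup G} (h : Inv ε N) (i : ℕ) : Inv (ε ^ i) N := by
  induction i with
  | zero => intro x; simp
  | succ i ih =>
    intro x
    rw [pow_succ, MulAut.mul_apply, ih, h]

theorem Inv.conj {ε : MulAut G} {N : Subgroup G} (h : Inv ε N) {g : G}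
    (hg : ∀ x, x ∈ N ↔ g * x * g⁻¹ ∈ N) : Inv (MulAut.conj g * ε) N := by
  intro x
  rw [MulAut.mul_apply, MulAut.conj_apply, ← hg, h]

theorem AddOn.one {N : Subgroup G} {θ : G → A} (h : AddOn N θ) : θ 1 = 0 := by
  have := h 1 N.one_mem 1 N.one_mem
  rw [mul_one] at this
  exact left_eq_add.1 this

theorem AddOn.inv {N : Subgroup G} {θ : G → A} (h : AddOn N θ) {x : G} (hx : x ∈ N) :
    θ x⁻¹ = - θ x := by
  have := h x hx x⁻¹ (N.inv_mem hx)
  rw [mul_inv_cancel, h.one] at this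
  exact (neg_eq_of_add_eq_zero_right this.symm).symm

theorem AddOn.pow {N : Subgroup G} {θ : G → A} (h : AddOn N θ) {x : G} (hx : x ∈ N) (k : ℕ) :
    θ (x ^ k) = k • θ x := by
  induction k with
  | zero => simp [h.one]
  | succ k ih => rw [pow_succ, h _ (N.pow_mem hx k) x hx, ih, succ_nsmul]

theorem AddOn.comm {N : Subgroup G} {θ : G → A} (h : AddOn N θ) {x y : G} (hx : x ∈ N)
    (hy : y ∈ N) : θ (x * y * x⁻¹ * y⁻¹) = 0 := by
  rw [h _ (N.mul_mem (N.mul_mem hx hy) (N.inv_mem hx)) _ (N.inv_mem hy),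
    h _ (N.mul_mem hx hy) _ (N.inv_mem hx), h _ hx _ hy, h.inv hx, h.inv hy]
  abel

theorem AddOn.comp {N : Subgroup G} {θ : G → A} (h : AddOn N θ) {ε : MulAut G} (hε : Inv ε N) :
    AddOn N (fun x => θ (ε x)) := by
  intro x hx y hy
  simp only [map_mul]
  exact h _ ((hε x).2 hx) _ ((hε y).2 hy)

theorem AddOn.nrm {N : Subgroup G} {θ : G → A} (h : AddOn N θ) {ε : MulAut G} (hε : Inv ε N)
    {x : G} (hx : x ∈ N) (k : ℕ) :
    Spl.nrm ε k x ∈ N ∧ θ (Spl.nrm ε k x) = ∑ i ∈ Finset.range k, θ ((ε ^ i) x) := by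
  induction k with
  | zero => exact ⟨N.one_mem, by simp [h.one]⟩
  | succ k ih =>
    have h1 : (ε ^ k) x ∈ N := (hε.pow k x).2 hx
    rw [nrm_succ]
    refine ⟨N.mul_mem ih.1 h1, ?_⟩
    rw [h _ ih.1 _ h1, ih.2, Finset.sum_range_succ]

theorem Splits.sum_eq {n : ℕ} {ε : MulAut G} (hs : Splits n ε) {N : Subgroup G} {θ : G → A}
    (h : AddOn N θ) (hε : Inv ε N) {x : G} (hx : x ∈ N) :
    ∑ i ∈ Finset.range n, θ ((ε ^ i) x) = 0 := by
  rw [← (h.nrm hε hx n).2, hs.norm_eq, h.one]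

end Pool.Agent.Helper13.Spl
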