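import Pool.Agent.Helper13.Spl.Aff

/-!
# Free Burnside groups and their subgroups
-/

set_option autoImplicit false

namespace Pool.Agent.Helper13.Spl

universe u v

/-- The normal subgroup of the free group on `X` generated by all `n`-th powers. -/
def powRel (X : Type u) (n : ℕ) : Subgroup (FreeGroup X) :=
  Subgroup.normalClosure (Set.range fun w : FreeGroup X => w ^ n)

instance (X : Type u) (n : ℕ) : (powRel X n).Normal := Subgroup.normalClosure_normal

/-- The free Burnside group of exponent `n` on the set `X` of free generators. -/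
abbrev Burn (X : Type u) (n : ℕ) : Type u := FreeGroup X ⧸ powRel X n

/-- the projection from the free group -/
def Burn.mk (X : Type u) (n : ℕ) : FreeGroup X →* Burn X n := QuotientGroup.mk' (powRel X n)

theorem Burn.mk_surj (X : Type u) (n : ℕ) : Function.Surjective (Burn.mk X n) :=
  QuotientGroup.mk'_surjective _

theorem Burn.mk_eq_one {X : Type u} {n : ℕ} {w : FreeGroup X} :
    Burn.mk X n w = 1 ↔ w ∈ powRel X n :=
  QuotientGroup.eq_one_iff w

theorem Burn.pow_eq_one {X : Type u} {n : ℕ} (g : Burn X n) : g ^ n = 1 := by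
  obtain ⟨w, rfl⟩ := Burn.mk_surj X n g
  rw [← map_pow, Burn.mk_eq_one]
  exact Subgroup.subset_normalClosure ⟨w, rfl⟩

theorem free_noncomm {X : Type u} {x y : X} (hxy : x ≠ y) {k : ℕ} (hk : 0 < k) :
    FreeGroup.of x ^ k * FreeGroup.of y ^ k ≠ FreeGroup.of y ^ k * FreeGroup.of x ^ k := by
  classical
  intro h
  have h2 : (2 : ℚ) ≠ 0 := by norm_num
  let f : FreeGroup X →* Aff ℚ :=
    FreeGroup.lift (fun a => if a = x then ⟨1, 1⟩ else ⟨0, Units.mk0 2 h2⟩)
  have hx : f (FreeGroup.of x) = ⟨1, 1⟩ := by simp [f]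
  have hy : f (FreeGroup.of y) = ⟨0, Units.mk0 2 h2⟩ := by simp [f, Ne.symm hxy]
  have h3 := congrArg (fun w => (f w).v) h
  simp only [map_mul, map_pow, hx, hy, Aff.mul_v, Aff.pow_v, Aff.pow_u] at h3
  simp at h3
  have h4 : (1 : ℚ) < 2 ^ k := one_lt_pow₀ (by norm_num) (by omega)
  have h5 : (0 : ℚ) < k := by exact_mod_cast hk
  nlinarith

theorem free_comm_of_subsingleton {I : Type u} (h : ∀ i j : I, i = j) (a b : FreeGroup I) :
    a * b = b * a := by
  have h1 : ∀ c : FreeGroup I, c ∈ Subgroup.centralizer (Set.range (FreeGroup.of : I → _)) := by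
    intro c
    have h2 : c ∈ Subgroup.closure (Set.range (FreeGroup.of : I → FreeGroup I)) := by
      rw [FreeGroup.closure_range_of]
      trivial
    have h3 : Subgroup.closure (Set.range (FreeGroup.of : I → FreeGroup I)) ≤
        Subgroup.centralizer (Set.range (FreeGroup.of : I → FreeGroup I)) := by
      rw [Subgroup.closure_le]
      rintro _ ⟨i, rfl⟩
      rw [SetLike.mem_coe, Subgroup.mem_centralizer_iff]
      rintro _ ⟨j, rfl⟩
      rw [h i j]
    exact h3 h2
  have h4 : Subgroup.closure (Set.range (FreeGroup.of : I → FreeGroup I)) ≤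
      Subgroup.centralizer {a} := by
    rw [Subgroup.closure_le]
    rintro _ ⟨i, rfl⟩
    rw [SetLike.mem_coe, Subgroup.mem_centralizer_iff]
    intro c hc
    rw [Set.mem_singleton_iff.1 hc]
    exact ((Subgroup.mem_centralizer_iff.1 (h1 a)) _ ⟨i, rfl⟩).symm
  have h5 : b ∈ Subgroup.centralizer {a} := h4 (by rw [FreeGroup.closure_range_of]; trivial)
  exact (Subgroup.mem_centralizer_iff.1 h5) a rfl

/-- Subgroups of a free Burnside group containing all `k`-th powers: they are images of a free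
group of rank at least two, and many homomorphisms factor. -/
theorem pres {X : Type u} [Nontrivial X] {n : ℕ} (hn : 0 < n) (N : Subgroup (Burn X n)) {k : ℕ}
    (hk : k ∣ n) (hN : ∀ g : Burn X n, g ^ k ∈ N) :
    ∃ (I : Type u) (_ : Nontrivial I) (q : FreeGroup I →* Burn X n), q.range = N ∧
      ∀ (H : Type v) [Group H] (ρ : FreeGroup I →* H),
        (∀ w, (∃ g, q w = g ^ k) → ρ w ^ (n / k) = 1) → ∀ w, q w = 1 → ρ w = 1 := by
  have hk0 : 0 < k := Nat.pos_of_dvd_of_pos hk hn
  let Nt : Subgroup (FreeGroup X) := N.comap (Burn.mk X n)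
  have : IsFreeGroup Nt := subgroupIsFreeOfIsFree Nt
  let e : Nt ≃* FreeGroup (IsFreeGroup.Generators Nt) := IsFreeGroup.toFreeGroup Nt
  let q : FreeGroup (IsFreeGroup.Generators Nt) →* Burn X n :=
    ((Burn.mk X n).comp Nt.subtype).comp e.symm.toMonoidHom
  have hq : ∀ x : Nt, q (e x) = Burn.mk X n x := by
    intro x
    simp [q]
  refine ⟨IsFreeGroup.Generators Nt, ?_, q, ?_, ?_⟩
  · by_contra hcon
    have hsub : ∀ i j : IsFreeGroup.Generators Nt, i = j := by
      intro i j
      by_contra hij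
      exact hcon ⟨i, j, hij⟩
    obtain ⟨x, y, hxy⟩ := exists_pair_ne X
    have hx : ∀ z : X, FreeGroup.of z ^ k ∈ Nt := by
      intro z
      change Burn.mk X n (FreeGroup.of z ^ k) ∈ N
      rw [map_pow]
      exact hN _
    have h1 := free_comm_of_subsingleton hsub (e ⟨_, hx x⟩) (e ⟨_, hx y⟩)
    rw [← map_mul, ← map_mul] at h1
    have h2 := congrArg Subtype.val (e.injective h1)
    exact free_noncomm hxy hk0 h2
  · ext g
    constructor
    · rintro ⟨w, rfl⟩
      obtain ⟨x, rfl⟩ := e.surjective w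
      rw [hq]
      exact x.2
    · intro hg
      obtain ⟨w, rfl⟩ := Burn.mk_surj X n g
      exact ⟨e ⟨w, hg⟩, hq _⟩
  · intro H _ ρ hρ w hw
    obtain ⟨x, rfl⟩ := e.surjective w
    rw [hq, Burn.mk_eq_one] at hw
    have hle : powRel X n ≤ ((ρ.comp e.toMonoidHom).ker).map Nt.subtype := by
      unfold powRel Subgroup.normalClosure
      rw [Subgroup.closure_le]
      intro c hc
      rw [Group.mem_conjugatesOfSet_iff] at hc
      obtain ⟨a, ⟨w0, rfl⟩, hc⟩ := hc
      obtain ⟨d, hd⟩ := isConj_iff.1 hc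
      have h1 : c = (d * w0 * d⁻¹) ^ n := by
        rw [conj_pow]
        exact hd.symm
      have h2 : (d * w0 * d⁻¹) ^ k ∈ Nt := by
        change Burn.mk X n _ ∈ N
        rw [map_pow]
        exact hN _
      have h3 := hρ (e ⟨_, h2⟩) ⟨Burn.mk X n (d * w0 * d⁻¹), by rw [hq, ← map_pow]⟩
      refine ⟨⟨_, h2⟩ ^ (n / k), ?_, ?_⟩
      · change ρ (e (⟨_, h2⟩ ^ (n / k))) = 1
        rw [map_pow, map_pow, h3]
      · rw [map_pow, h1]
        change ((d * w0 * d⁻¹) ^ k) ^ (n / k) = _
        rw [← pow_mul, Nat.mul_div_cancel' hk]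
    obtain ⟨y, hy, hyx⟩ := hle hw
    have h4 : y = x := Subtype.ext hyx
    rw [← h4]
    exact hy

/-- a homomorphism killing the kernel descends to a function on the image -/
theorem descend {I : Type u} {G : Type u} {H : Type v} [Group G] [Group H]
    (q : FreeGroup I →* G) (ρ : FreeGroup I →* H) (h : ∀ w, q w = 1 → ρ w = 1) :
    ∃ r : G → H, ∀ w, r (q w) = ρ w := by
  classical
  refine ⟨fun x => if hx : ∃ w, q w = x then ρ hx.choose else 1, ?_⟩
  intro w
  have hx : ∃ w', q w' = q w := ⟨w, rfl⟩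
  have h1 : q (hx.choose⁻¹ * w) = 1 := by
    rw [map_mul, map_inv, hx.choose_spec]
    simp
  have h2 := h _ h1
  rw [map_mul, map_inv, inv_mul_eq_one] at h2
  simp only [dif_pos hx]
  exact h2

end Pool.Agent.Helper13.Spl
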