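import Pool.Agent.Helper13.Spl.Sec

/-!
# Regular orbits of characters
-/

set_option autoImplicit false

namespace Pool.Agent.Helper13.Spl

universe u v

theorem end_mul_apply {M : Type v} [AddCommGroup M] (f g : AddMonoid.End M) (x : M) :
    (f * g) x = f (g x) := rfl

theorem end_key {M : Type v} [AddCommGroup M] (σ : AddMonoid.End M) {w : M} {p l : ℕ}
    (hp : p.Prime) (hl : l.Prime) (hpl : l ≠ p) (hw : (σ ^ l) w = w)
    (hpd : p • (σ w - w) = 0) (hd : σ (σ w - w) = σ w - w) : σ w - w = 0 := by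
  have h1 : ∀ j : ℕ, (σ ^ j) w = w + j • (σ w - w) := by
    intro j
    induction j with
    | zero => simp
    | succ j ih =>
      rw [pow_succ', end_mul_apply, ih, map_add, map_nsmul, hd, succ_nsmul]
      abel
  have h2 : l • (σ w - w) = 0 := by
    have := h1 l
    rw [hw] at this
    exact left_eq_add.1 this
  have h3 : (Nat.gcd l p) • (σ w - w) = 0 := by
    have h4 : addOrderOf (σ w - w) ∣ l := addOrderOf_dvd_of_nsmul_eq_zero h2
    have h5 : addOrderOf (σ w - w) ∣ p := addOrderOf_dvd_of_nsmul_eq_zero hpd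
    exact addOrderOf_dvd_iff_nsmul_eq_zero.1 (Nat.dvd_gcd h4 h5)
  rwa [(Nat.coprime_primes hl hp).2 hpl, one_nsmul] at h3

/-- a cyclic group of squarefree order acting on an elementary abelian group has a regular
orbit -/
theorem regular_elt {M : Type v} [AddCommGroup M] (Y : AddSubgroup M) (τ : AddMonoid.End M)
    (hY : ∀ y ∈ Y, τ y ∈ Y) {p : ℕ} (hp : p.Prime) (hpY : ∀ y ∈ Y, p • y = 0) {L : ℕ}
    (hLY : ∀ y ∈ Y, (τ ^ L) y = y)
    (hmin : ∀ l : ℕ, l.Prime → l ∣ L → ∃ y ∈ Y, (τ ^ (L / l)) y ≠ y) :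
    ∃ y ∈ Y, ∀ l : ℕ, l.Prime → l ∣ L → (τ ^ (L / l)) y ≠ y := by
  classical
  have hYk : ∀ k : ℕ, ∀ y ∈ Y, (τ ^ k) y ∈ Y := by
    intro k
    induction k with
    | zero => intro y hy; simpa using hy
    | succ k ih =>
      intro y hy
      rw [pow_succ, end_mul_apply]
      exact ih _ (hY y hy)
  by_cases hL0 : L = 0
  · subst hL0
    obtain ⟨y, hy, h⟩ := hmin 2 Nat.prime_two (dvd_zero 2)
    exact absurd (by simp) h
  have key : ∀ S : Finset ℕ, (∀ l ∈ S, l.Prime ∧ l ∣ L ∧ l ≠ p) →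
      ∃ y ∈ Y, (p ∣ L → (τ ^ (L / p)) y ≠ y) ∧ ∀ l ∈ S, (τ ^ (L / l)) y ≠ y := by
    intro S
    induction S using Finset.induction_on with
    | empty =>
      intro _
      by_cases hpL : p ∣ L
      · obtain ⟨y, hy, h⟩ := hmin p hp hpL
        exact ⟨y, hy, fun _ => h, by simp⟩
      · exact ⟨0, Y.zero_mem, fun h => absurd h hpL, by simp⟩
    | insert l S hlS ih =>
      intro hS
      obtain ⟨y, hy, hyp, hyS⟩ := ih fun l' hl' => hS l' (Finset.mem_insert_of_mem hl')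
      obtain ⟨hl, hlL, hlp⟩ := hS l (Finset.mem_insert_self l S)
      by_cases hyl : (τ ^ (L / l)) y ≠ y
      · refine ⟨y, hy, hyp, fun l' hl' => ?_⟩
        rcases Finset.mem_insert.1 hl' with rfl | h
        · exact hyl
        · exact hyS l' h
      push Not at hyl
      obtain ⟨z, hz, hzl⟩ := hmin l hl hlL
      have hpow : ∀ w ∈ Y, ((τ ^ (L / l)) ^ l) w = w := by
        intro w hw
        rw [← pow_mul, Nat.div_mul_cancel hlL]
        exact hLY w hw
      have hkey : ∀ w ∈ Y, (τ ^ (L / l)) ((τ ^ (L / l)) w - w) = (τ ^ (L / l)) w - w →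
          (τ ^ (L / l)) w - w = 0 := by
        intro w hw h
        exact end_key _ hp hl hlp (hpow w hw)
          (hpY _ (Y.sub_mem (hYk _ w hw) hw)) h
      have hz' : (τ ^ (L / l)) z - z ∈ Y := Y.sub_mem (hYk _ z hz) hz
      have hother : ∀ k : ℕ, (τ ^ k) y ≠ y →
          (τ ^ k) (y + ((τ ^ (L / l)) z - z)) ≠ y + ((τ ^ (L / l)) z - z) := by
        intro k hk hcon
        have hcomm : ∀ w, (τ ^ k) ((τ ^ (L / l)) w) = (τ ^ (L / l)) ((τ ^ k) w) := by
          intro w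
          rw [← end_mul_apply, ← end_mul_apply, ← pow_add, ← pow_add,
            add_comm]
        have h1 : (τ ^ k) y - y = (τ ^ (L / l)) (z - (τ ^ k) z) - (z - (τ ^ k) z) := by
          rw [map_add, map_sub, hcomm] at hcon
          rw [map_sub]
          have := sub_eq_zero.2 hcon
          rw [← sub_eq_zero]
          rw [← this]
          abel
        have h2 : (τ ^ (L / l)) ((τ ^ k) y - y) = (τ ^ k) y - y := by
          rw [map_sub, ← hcomm, hyl]
        have h3 := hkey (z - (τ ^ k) z) (Y.sub_mem hz (hYk _ z hz)) (by rw [← h1]; exact h2)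
        rw [← h1] at h3
        exact hk (sub_eq_zero.1 h3)
      refine ⟨y + ((τ ^ (L / l)) z - z), Y.add_mem hy hz', fun h => hother _ (hyp h), ?_⟩
      intro l' hl'
      rcases Finset.mem_insert.1 hl' with rfl | h
      · intro hcon
        rw [map_add, hyl, add_right_inj] at hcon
        exact hzl (sub_eq_zero.1 (hkey z hz hcon))
      · exact hother _ (hyS l' h)
  obtain ⟨y, hy, hyp, hyS⟩ := key (L.primeFactors.erase p) (by
    intro l hl
    rw [Finset.mem_erase, Nat.mem_primeFactors] at hl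
    exact ⟨hl.2.1, hl.2.2.1, hl.1⟩)
  refine ⟨y, hy, fun l hl hlL => ?_⟩
  by_cases hlp : l = p
  · rw [hlp]
    exact hyp (hlp ▸ hlL)
  · exact hyS l (Finset.mem_erase.2 ⟨hlp, Nat.mem_primeFactors.2 ⟨hl, hlL, hL0⟩⟩)

theorem period_dvd {M : Type v} (f : M → M) {x : M} {L : ℕ} (hL : f^[L] x = x)
    (h : ∀ l : ℕ, l.Prime → l ∣ L → f^[L / l] x ≠ x) (j : ℕ) : f^[j] x = x ↔ L ∣ j := by
  have h1 : Function.minimalPeriod f x ∣ L :=
    (Function.isPeriodicPt_iff_minimalPeriod_dvd).1 hL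
  have h2 : Function.minimalPeriod f x = L := by
    by_contra hne
    obtain ⟨d, hd⟩ := h1
    have hd1 : d ≠ 1 := by
      rintro rfl
      rw [mul_one] at hd
      exact hne hd.symm
    obtain ⟨l, hl, e, rfl⟩ := Nat.exists_prime_and_dvd hd1
    apply h l hl ⟨Function.minimalPeriod f x * e, by rw [hd]; ring⟩
    have h3 : L / l = Function.minimalPeriod f x * e := by
      rw [hd]
      apply Nat.div_eq_of_eq_mul_right hl.pos
      ring
    rw [h3]
    exact (Function.isPeriodicPt_iff_minimalPeriod_dvd).2 (dvd_mul_right _ _)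
  rw [← h2]
  exact Function.isPeriodicPt_iff_minimalPeriod_dvd

variable {G : Type u} [Group G]

/-- composition with an automorphism -/
def compEnd (A : Type v) [AddCommGroup A] (ε : MulAut G) : AddMonoid.End (G → A) where
  toFun f := fun x => f (ε x)
  map_zero' := rfl
  map_add' _ _ := rfl

theorem compEnd_pow (A : Type v) [AddCommGroup A] (ε : MulAut G) (k : ℕ) (f : G → A) :
    (compEnd A ε ^ k) f = fun x => f ((ε ^ k) x) := by
  induction k generalizing f with
  | zero => rfl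
  | succ k ih =>
    rw [pow_succ, end_mul_apply, ih]
    funext x
    rw [pow_succ' ε]
    rfl

theorem compEnd_iter (A : Type v) [AddCommGroup A] (ε : MulAut G) (k : ℕ) (f : G → A) :
    (compEnd A ε)^[k] f = fun x => f ((ε ^ k) x) := by
  rw [← compEnd_pow, AddMonoid.End.coe_pow]

theorem exists_regular {p : ℕ} [Fact p.Prime] {N0 N1 : Subgroup G} (hsec : Sec p N0 N1)
    {ε : MulAut G} (h0 : Inv ε N0) (h1 : Inv ε N1) {L : ℕ}
    (hLN : ∀ x ∈ N0, (ε ^ L) x * x⁻¹ ∈ N1)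
    (hmin : ∀ l : ℕ, l.Prime → l ∣ L → ∃ x ∈ N0, (ε ^ (L / l)) x * x⁻¹ ∉ N1) :
    ∃ χ : G → ZMod p, AddOn N0 χ ∧ (∀ y ∈ N1, χ y = 0) ∧
      ∀ j, (∀ x ∈ N0, χ ((ε ^ j) x) = χ x) ↔ L ∣ j := by
  classical
  let Y : AddSubgroup (G → ZMod p) :=
    { carrier := {χ | AddOn N0 χ ∧ (∀ y ∈ N1, χ y = 0) ∧ ∀ x, x ∉ N0 → χ x = 0}
      add_mem' := by
        rintro a b ⟨ha, ha1, ha2⟩ ⟨hb, hb1, hb2⟩
        refine ⟨fun x hx y hy => ?_, fun y hy => ?_, fun x hx => ?_⟩
        · simp only [Pi.add_apply, ha x hx y hy, hb x hx y hy]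
          ring
        · simp [ha1 y hy, hb1 y hy]
        · simp [ha2 x hx, hb2 x hx]
      zero_mem' := ⟨fun x _ y _ => by simp, fun _ _ => rfl, fun _ _ => rfl⟩
      neg_mem' := by
        rintro a ⟨ha, ha1, ha2⟩
        refine ⟨fun x hx y hy => ?_, fun y hy => ?_, fun x hx => ?_⟩
        · simp only [Pi.neg_apply, ha x hx y hy]
          ring
        · simp [ha1 y hy]
        · simp [ha2 x hx] }
  have hYmem : ∀ χ : G → ZMod p, χ ∈ Y ↔
      AddOn N0 χ ∧ (∀ y ∈ N1, χ y = 0) ∧ ∀ x, x ∉ N0 → χ x = 0 := fun _ => Iff.rfl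
  have hdiff : ∀ χ : G → ZMod p, AddOn N0 χ → ∀ x ∈ N0, ∀ y ∈ N0,
      χ (y * x⁻¹) = χ y - χ x := by
    intro χ hχ x hx y hy
    rw [hχ y hy _ (N0.inv_mem hx), hχ.inv hx]
    ring
  obtain ⟨χ, hχ, hreg⟩ := regular_elt Y (compEnd (ZMod p) ε) (by
      rintro χ ⟨ha, ha1, ha2⟩
      refine ⟨ha.comp h0, fun y hy => ha1 _ ((h1 y).2 hy), fun x hx => ha2 _ ?_⟩
      rwa [h0]) (p := p) Fact.out (by
      intro y _
      funext x
      simp) (L := L) (by
      rintro χ ⟨ha, ha1, ha2⟩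
      rw [compEnd_pow]
      funext x
      by_cases hx : x ∈ N0
      · have h3 := ha1 _ (hLN x hx)
        rw [hdiff χ ha x hx _ ((h0.pow L x).2 hx)] at h3
        exact sub_eq_zero.1 h3
      · rw [ha2 x hx, ha2]
        rwa [h0.pow]) (by
      intro l hl hlL
      obtain ⟨x, hx, hxN⟩ := hmin l hl hlL
      have hx2 : (ε ^ (L / l)) x ∈ N0 := (h0.pow _ x).2 hx
      obtain ⟨χ0, h3, h4, h5⟩ := hsec.sep _ (N0.mul_mem hx2 (N0.inv_mem hx)) hxN
      refine ⟨fun y => if y ∈ N0 then χ0 y else 0, ⟨?_, ?_, ?_⟩, ?_⟩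
      · intro a ha b hb
        simp only [ha, hb, N0.mul_mem ha hb, if_true]
        exact h3 a ha b hb
      · intro y hy
        simp only [hsec.le hy, if_true]
        exact h4 y hy
      · intro y hy
        simp [hy]
      · intro hcon
        rw [compEnd_pow] at hcon
        have h6 := congrFun hcon x
        simp only [hx, hx2, if_true] at h6
        apply h5
        rw [hdiff χ0 h3 x hx _ hx2, h6, sub_self])
  refine ⟨χ, hχ.1, hχ.2.1, fun j => ?_⟩
  have hfix : (compEnd (ZMod p) ε)^[L] χ = χ := by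
    rw [compEnd_iter]
    funext x
    by_cases hx : x ∈ N0
    · have h3 := hχ.2.1 _ (hLN x hx)
      rw [hdiff χ hχ.1 x hx _ ((h0.pow L x).2 hx)] at h3
      exact sub_eq_zero.1 h3
    · rw [hχ.2.2 x hx, hχ.2.2]
      rwa [h0.pow]
  rw [← period_dvd (compEnd (ZMod p) ε) hfix (by
    intro l hl hlL
    have := hreg l hl hlL
    rwa [← AddMonoid.End.coe_pow]) j, compEnd_iter]
  constructor
  · intro h
    funext x
    by_cases hx : x ∈ N0
    · exact h x hx
    · rw [hχ.2.2 x hx, hχ.2.2]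
      rwa [h0.pow]
  · intro h x _
    exact congrFun h x

/-- the exact order of `ε` on a section -/
theorem exists_order {N0 N1 : Subgroup G} {ε : MulAut G} (h0 : Inv ε N0) {n : ℕ} (hn : 0 < n)
    (hε : ε ^ n = 1) : ∃ L, L ∣ n ∧ ∀ j, (∀ x ∈ N0, (ε ^ j) x * x⁻¹ ∈ N1) ↔ L ∣ j := by
  classical
  let D : ℕ → Prop := fun j => ∀ x ∈ N0, (ε ^ j) x * x⁻¹ ∈ N1
  have hadd : ∀ j k, D j → D k → D (j + k) := by
    intro j k hj hk x hx
    have h1 := N1.mul_mem (hj _ ((h0.pow k x).2 hx)) (hk x hx)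
    rw [pow_add, MulAut.mul_apply]
    have h2 : (ε ^ j) ((ε ^ k) x) * ((ε ^ k) x)⁻¹ * ((ε ^ k) x * x⁻¹) =
        (ε ^ j) ((ε ^ k) x) * x⁻¹ := by group
    rwa [h2] at h1
  have hsub : ∀ j k, D (j + k) → D k → D j := by
    intro j k hjk hk x hx
    obtain ⟨y, rfl⟩ := (ε ^ k).surjective x
    have hy : y ∈ N0 := (h0.pow k y).1 hx
    have h1 := N1.mul_mem (hjk y hy) (N1.inv_mem (hk y hy))
    rw [pow_add, MulAut.mul_apply] at h1
    have h2 : (ε ^ j) ((ε ^ k) y) * y⁻¹ * ((ε ^ k) y * y⁻¹)⁻¹ =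
        (ε ^ j) ((ε ^ k) y) * ((ε ^ k) y)⁻¹ := by group
    rwa [h2] at h1
  have hDn : D n := by
    intro x _
    rw [hε]
    simp
  have hD0 : D 0 := by
    intro x _
    simp
  have hex : ∃ j, 0 < j ∧ D j := ⟨n, hn, hDn⟩
  have hspec := Nat.find_spec hex
  have hmul : ∀ m, D (Nat.find hex * m) := by
    intro m
    induction m with
    | zero => simpa using hD0
    | succ m ih =>
      rw [Nat.mul_succ]
      exact hadd _ _ ih hspec.2
  have hiff : ∀ j, D j ↔ Nat.find hex ∣ j := by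
    intro j
    constructor
    · intro hj
      have h1 : D (j % Nat.find hex) := by
        apply hsub _ (Nat.find hex * (j / Nat.find hex)) _ (hmul _)
        rwa [Nat.mod_add_div]
      by_contra hcon
      have h2 : 0 < j % Nat.find hex := Nat.pos_of_ne_zero fun h => hcon (Nat.dvd_of_mod_eq_zero h)
      exact absurd (Nat.find_min' hex ⟨h2, h1⟩) (not_le.2 (Nat.mod_lt _ hspec.1))
    · rintro ⟨m, rfl⟩
      exact hmul m
  exact ⟨Nat.find hex, (hiff n).1 hDn, hiff⟩

end Pool.Agent.Helper13.Spl
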