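import Pool.Agent.Helper13.Spl.Norm

/-!
# Elementary abelian sections
-/

set_option autoImplicit false

namespace Pool.Agent.Helper13.Spl

universe u v

/-- elements of a vector space over a prime field are separated by functionals -/
theorem sepfun {M : Type v} [AddCommGroup M] (p : ℕ) [Fact p.Prime] (hM : ∀ x : M, p • x = 0)
    {x : M} (hx : x ≠ 0) : ∃ f : M →+ ZMod p, f x ≠ 0 := by
  let inst : Module (ZMod p) M := AddCommGroup.zmodModule hM
  have h1 : @Module.Free (ZMod p) M _ _ inst := Module.Free.of_divisionRing (ZMod p) M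
  have h2 : @Module.Projective (ZMod p) _ M _ inst :=
    @Module.Projective.of_free _ _ _ _ _ h1
  by_contra hcon
  push Not at hcon
  exact hx ((@Module.forall_dual_apply_eq_zero_iff M _ (ZMod p) _ inst h2 x).1
    fun φ => hcon φ.toAddMonoidHom)

variable {G : Type u} [Group G]

/-- the common kernel of the additive maps `N → ZMod s` -/
def kerS (s : ℕ) (N : Subgroup G) : Subgroup G where
  carrier := {x | x ∈ N ∧ ∀ χ : G → ZMod s, AddOn N χ → χ x = 0}
  mul_mem' := by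
    rintro x y ⟨hx, hx'⟩ ⟨hy, hy'⟩
    exact ⟨N.mul_mem hx hy, fun χ h => by rw [h x hx y hy, hx' χ h, hy' χ h, add_zero]⟩
  one_mem' := ⟨N.one_mem, fun χ h => h.one⟩
  inv_mem' := by
    rintro x ⟨hx, hx'⟩
    exact ⟨N.inv_mem hx, fun χ h => by rw [h.inv hx, hx' χ h, neg_zero]⟩

theorem mem_kerS {s : ℕ} {N : Subgroup G} {x : G} :
    x ∈ kerS s N ↔ x ∈ N ∧ ∀ χ : G → ZMod s, AddOn N χ → χ x = 0 := Iff.rfl

/-- `N0 / N1` is elementary abelian of exponent `p` -/
structure Sec (p : ℕ) (N0 N1 : Subgroup G) : Prop where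
  le : N1 ≤ N0
  sep : ∀ x ∈ N0, x ∉ N1 → ∃ χ : G → ZMod p, AddOn N0 χ ∧ (∀ y ∈ N1, χ y = 0) ∧ χ x ≠ 0

theorem Sec.comm {p : ℕ} {N0 N1 : Subgroup G} (h : Sec p N0 N1) {x y : G} (hx : x ∈ N0)
    (hy : y ∈ N0) : x * y * x⁻¹ * y⁻¹ ∈ N1 := by
  by_contra hcon
  obtain ⟨χ, h1, -, h3⟩ := h.sep _ (N0.mul_mem (N0.mul_mem (N0.mul_mem hx hy) (N0.inv_mem hx))
    (N0.inv_mem hy)) hcon
  exact h3 (h1.comm hx hy)

theorem Sec.conj {p : ℕ} {N0 N1 : Subgroup G} (h : Sec p N0 N1) {g x : G} (hg : g ∈ N0)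
    (hx : x ∈ N1) : g * x * g⁻¹ ∈ N1 := by
  have h1 := N1.mul_mem (h.comm hg (h.le hx)) hx
  rwa [inv_mul_cancel_right] at h1

theorem Sec.conj_iff {p : ℕ} {N0 N1 : Subgroup G} (h : Sec p N0 N1) {g : G} (hg : g ∈ N0)
    (x : G) : x ∈ N1 ↔ g * x * g⁻¹ ∈ N1 := by
  refine ⟨h.conj hg, fun hx => ?_⟩
  have h1 := h.conj (N0.inv_mem hg) hx
  have h2 : g⁻¹ * (g * x * g⁻¹) * g⁻¹⁻¹ = x := by group
  rwa [h2] at h1

theorem Sec.pow_mem {p : ℕ} {N0 N1 : Subgroup G} (h : Sec p N0 N1) {x : G} (hx : x ∈ N0) :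
    x ^ p ∈ N1 := by
  by_contra hcon
  obtain ⟨χ, h1, -, h3⟩ := h.sep _ (N0.pow_mem hx p) hcon
  apply h3
  rw [h1.pow hx]
  simp

theorem kerS_le (s : ℕ) (N : Subgroup G) : kerS s N ≤ N := fun _ h => h.1

theorem sec_kerS (s : ℕ) (N : Subgroup G) : Sec s N (kerS s N) := by
  refine ⟨kerS_le s N, fun x hx hx' => ?_⟩
  by_contra hcon
  apply hx'
  refine ⟨hx, fun χ h => ?_⟩
  by_contra h2
  exact hcon ⟨χ, h, fun y hy => hy.2 χ h, h2⟩

theorem Inv.symm_comp {ε : MulAut G} {N : Subgroup G} (h : Inv ε N) : Inv ε⁻¹ N := by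
  intro x
  rw [← h (ε⁻¹ x), MulAut.apply_inv_self]

theorem Inv.kerS {ε : MulAut G} {N : Subgroup G} (h : Inv ε N) (s : ℕ) :
    Inv ε (Spl.kerS s N) := by
  intro x
  constructor
  · rintro ⟨h1, h2⟩
    refine ⟨(h x).1 h1, fun χ hχ => ?_⟩
    have h3 := h2 _ (hχ.comp h.symm_comp)
    simpa using h3
  · rintro ⟨h1, h2⟩
    exact ⟨(h x).2 h1, fun χ hχ => h2 _ (hχ.comp h)⟩

theorem kerS_eq_zero {A : Type v} [AddCommGroup A] {s : ℕ} [Fact s.Prime]
    (hA : ∀ a : A, s • a = 0) {N : Subgroup G} {θ : G → A} (h : AddOn N θ) {x : G}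
    (hx : x ∈ kerS s N) : θ x = 0 := by
  by_contra hcon
  obtain ⟨f, hf⟩ := sepfun s hA hcon
  apply hf
  refine hx.2 (fun y => f (θ y)) fun a ha b hb => ?_
  change f (θ (a * b)) = f (θ a) + f (θ b)
  rw [h a ha b hb, map_add]

theorem pow_mem_kerS {s k : ℕ} {N : Subgroup G} (h : ∀ g : G, g ^ k ∈ N) (g : G) :
    g ^ (k * s) ∈ kerS s N := by
  rw [pow_mul]
  exact (sec_kerS s N).pow_mem (h g)

/-- in a free Burnside group of squarefree exponent, the commutator subgroup is detected by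
homomorphisms to groups of prime order -/
theorem mem_commutator_of_kerS {X : Type u} {n : ℕ} (hn : Squarefree n) {x : Burn X n}
    (h : ∀ q : ℕ, q.Prime → q ∣ n → x ∈ kerS q (⊤ : Subgroup (Burn X n))) :
    x ∈ commutator (Burn X n) := by
  have hn0 : 0 < n := Nat.pos_of_ne_zero hn.ne_zero
  rw [← Abelianization.ker_of, MonoidHom.mem_ker]
  by_contra hcon
  have hpow : ∀ a : Abelianization (Burn X n), a ^ n = 1 := by
    intro a
    obtain ⟨b, rfl⟩ := QuotientGroup.mk_surjective a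
    change Abelianization.of b ^ n = 1
    rw [← map_pow, Burn.pow_eq_one, map_one]
  have hord : orderOf (Abelianization.of x) ∣ n := orderOf_dvd_of_pow_eq_one (hpow _)
  have hne : orderOf (Abelianization.of x) ≠ 1 := by
    rwa [Ne, orderOf_eq_one_iff]
  obtain ⟨q, hq, hqd⟩ := Nat.exists_prime_and_dvd hne
  have : Fact q.Prime := ⟨hq⟩
  have hqn : q ∣ n := hqd.trans hord
  -- the quotient by `q`-th powers
  let B := Additive (Abelianization (Burn X n))
  let P : AddSubgroup B := (AddMonoidHom.range (nsmulAddMonoidHom (α := B) q))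
  have hP : ∀ b : B ⧸ P, q • b = 0 := by
    intro b
    obtain ⟨c, rfl⟩ := QuotientAddGroup.mk_surjective b
    rw [← QuotientAddGroup.mk_nsmul, QuotientAddGroup.eq_zero_iff]
    exact ⟨c, rfl⟩
  have hx : (QuotientAddGroup.mk (Additive.ofMul (Abelianization.of x)) : B ⧸ P) ≠ 0 := by
    intro h0
    rw [QuotientAddGroup.eq_zero_iff] at h0
    obtain ⟨c, hc⟩ := h0
    obtain ⟨c', rfl⟩ := Additive.ofMul.surjective c
    have hc2 : c' ^ q = Abelianization.of x := congrArg Additive.toMul hc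
    have h1 : Abelianization.of x ^ (n / q) = 1 := by
      rw [← hc2, ← pow_mul, Nat.mul_div_cancel' hqn, hpow]
    have h2 := hqd.trans (orderOf_dvd_of_pow_eq_one h1)
    have h3 : q * q ∣ n := by
      obtain ⟨d, hd⟩ := h2
      refine ⟨d, ?_⟩
      rw [mul_assoc, ← hd, Nat.mul_div_cancel' hqn]
    exact hq.not_isUnit (hn q h3)
  obtain ⟨f, hf⟩ := sepfun q hP hx
  apply hf
  refine (h q hq hqn).2 (fun y => f (QuotientAddGroup.mk (Additive.ofMul (Abelianization.of y)))) ?_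
  intro a _ b _
  change f (QuotientAddGroup.mk (Additive.ofMul (Abelianization.of (a * b)))) =
    f (QuotientAddGroup.mk (Additive.ofMul (Abelianization.of a))) +
    f (QuotientAddGroup.mk (Additive.ofMul (Abelianization.of b)))
  rw [map_mul, ofMul_mul, QuotientAddGroup.mk_add, map_add]

end Pool.Agent.Helper13.Spl
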