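import Pool.Agent.Helper13.Spl.StepC

/-!
# Fixed points on tight sections
-/

set_option autoImplicit false

namespace Pool.Agent.Helper13.Spl

universe u v

section general

variable {G : Type u} [Group G]

theorem pow_sub_mem {ε : MulAut G} {N1 : Subgroup G} (h1 : Inv ε N1) {c : G}
    (hc : ε c * c⁻¹ ∈ N1) (j : ℕ) : (ε ^ j) c * c⁻¹ ∈ N1 := by
  induction j with
  | zero => simp
  | succ j ih =>
    have h2 : (ε ^ j) (ε c * c⁻¹) ∈ N1 := (h1.pow j _).2 hc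
    have h3 := N1.mul_mem h2 ih
    rw [map_mul, map_inv] at h3
    rw [pow_succ, MulAut.mul_apply]
    have h4 : (ε ^ j) (ε c) * ((ε ^ j) c)⁻¹ * ((ε ^ j) c * c⁻¹) = (ε ^ j) (ε c) * c⁻¹ := by group
    rwa [h4] at h3

theorem AddOn.eq_of_mem {A : Type v} [AddCommGroup A] {N0 N1 : Subgroup G} {χ : G → A}
    (h : AddOn N0 χ) (h1 : ∀ x ∈ N1, χ x = 0) {x y : G} (hx : x ∈ N0) (hy : y ∈ N0)
    (hxy : x * y⁻¹ ∈ N1) : χ x = χ y := by
  have h2 := h1 _ hxy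
  rw [h x hx _ (N0.inv_mem hy), h.inv hy] at h2
  exact sub_eq_zero.1 (by rw [sub_eq_add_neg]; exact h2)

theorem State.exists_chi {n p k : ℕ} {ε : MulAut G} {N0 N1 : Subgroup G}
    (h : State n p k ε N0 N1) {L : ℕ} (hL : Ord ε N0 N1 L) (hn : 0 < n) (hpL : ¬ p ∣ L) {c : G}
    (hc0 : c ∈ N0) (hc1 : c ∉ N1) (hc : ε c * c⁻¹ ∈ N1) :
    ∃ χ : G → ZMod p, AddOn N0 χ ∧ (∀ y ∈ N1, χ y = 0) ∧
      (∀ j, (∀ x ∈ N0, χ ((ε ^ j) x) = χ x) ↔ L ∣ j) ∧ χ c ≠ 0 := by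
  have : Fact p.Prime := ⟨h.prime⟩
  have hLn := h.ord_dvd hL
  have hL0 : 0 < L := Nat.pos_of_dvd_of_pos hLn hn
  obtain ⟨χ, h1, h2, h3⟩ := exists_regular h.sec h.inv0 h.inv1 ((hL L).2 dvd_rfl) (by
    intro l hl hlL
    by_contra hcon
    push Not at hcon
    have h4 := Nat.le_of_dvd (Nat.div_pos (Nat.le_of_dvd hL0 hlL) hl.pos) ((hL (L / l)).1 hcon)
    exact absurd h4 (not_le.2 (Nat.div_lt_self hL0 hl.one_lt)))
  by_cases hχc : χ c = 0
  swap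
  · exact ⟨χ, h1, h2, h3, hχc⟩
  obtain ⟨χ', h4, h5, h6⟩ := h.sec.sep c hc0 hc1
  let χ0 : G → ZMod p := fun x => ∑ j ∈ Finset.range L, χ' ((ε ^ j) x)
  have hmem : ∀ j, ∀ x ∈ N0, (ε ^ j) x ∈ N0 := fun j x hx => (h.inv0.pow j x).2 hx
  have hχ0 : AddOn N0 χ0 := by
    intro x hx y hy
    simp only [χ0]
    rw [← Finset.sum_add_distrib]
    apply Finset.sum_congr rfl
    intro j _
    rw [map_mul, h4 _ (hmem j x hx) _ (hmem j y hy)]
  have hinv1 : ∀ x ∈ N0, χ0 (ε x) = χ0 x := by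
    intro x hx
    simp only [χ0]
    have h7 : ∀ j, (ε ^ j) (ε x) = (ε ^ (j + 1)) x := by
      intro j
      rw [pow_succ]
      rfl
    simp only [h7]
    have h8 := Finset.sum_range_succ (fun j => χ' ((ε ^ j) x)) L
    rw [Finset.sum_range_succ'] at h8
    have h9 : χ' ((ε ^ L) x) = χ' x :=
      h4.eq_of_mem h5 (hmem L x hx) hx ((hL L).2 dvd_rfl x hx)
    rw [h9] at h8
    simpa using h8
  have hinv : ∀ j, ∀ x ∈ N0, χ0 ((ε ^ j) x) = χ0 x := by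
    intro j
    induction j with
    | zero => intro x _; simp
    | succ j ih =>
      intro x hx
      rw [pow_succ', MulAut.mul_apply, hinv1 _ (hmem j x hx), ih x hx]
  have hχ0c : χ0 c = (L : ZMod p) * χ' c := by
    simp only [χ0]
    have h7 : ∀ j ∈ Finset.range L, χ' ((ε ^ j) c) = χ' c := fun j _ =>
      h4.eq_of_mem h5 (hmem j c hc0) hc0 (pow_sub_mem h.inv1 hc j)
    rw [Finset.sum_congr rfl h7]
    simp
  refine ⟨fun x => χ x + χ0 x, ?_, ?_, ?_, ?_⟩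
  · intro x hx y hy
    simp only [h1 x hx y hy, hχ0 x hx y hy]
    ring
  · intro y hy
    have h7 : χ0 y = 0 := Finset.sum_eq_zero fun j _ => h5 _ ((h.inv1.pow j y).2 hy)
    simp only [h2 y hy, h7, add_zero]
  · intro j
    rw [← h3]
    constructor
    · intro h7 x hx
      have h8 := h7 x hx
      simp only [hinv j x hx] at h8
      exact add_right_cancel h8
    · intro h7 x hx
      simp only [hinv j x hx, h7 x hx]
  · simp only [hχc, zero_add, hχ0c]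
    refine mul_ne_zero ?_ h6
    rwa [Ne, ZMod.natCast_eq_zero_iff]

theorem CharOn.conj {K : Type v} [Field K] {N : Subgroup G} {ξ : G → K} (h : CharOn N ξ)
    {g x : G} (hg : g ∈ N) (hx : x ∈ N) : ξ (g * x * g⁻¹) = ξ x := by
  have h1 : ξ g * ξ g⁻¹ = 1 := by rw [← h.mul g hg _ (N.inv_mem hg), mul_inv_cancel, h.one]
  rw [h.mul _ (N.mul_mem hg hx) _ (N.inv_mem hg), h.mul g hg x hx]
  linear_combination (ξ x) * h1

theorem CharOn.nrm {K : Type v} [Field K] {N : Subgroup G} {ξ : G → K} (h : CharOn N ξ)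
    {ε : MulAut G} (hε : Inv ε N) {x : G} (hx : x ∈ N) (hinv : ∀ j, ξ ((ε ^ j) x) = ξ x)
    (k : ℕ) : Spl.nrm ε k x ∈ N ∧ ξ (Spl.nrm ε k x) = ξ x ^ k := by
  induction k with
  | zero => exact ⟨N.one_mem, by simp [h.one]⟩
  | succ k ih =>
    rw [nrm_succ]
    refine ⟨N.mul_mem ih.1 ((hε.pow k x).2 hx), ?_⟩
    rw [h.mul _ ih.1 _ ((hε.pow k x).2 hx), ih.2, hinv, pow_succ]

theorem CharOn.pow {K : Type v} [Field K] {N : Subgroup G} {ξ : G → K} (h : CharOn N ξ)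
    {x : G} (hx : x ∈ N) (k : ℕ) : ξ (x ^ k) = ξ x ^ k := by
  induction k with
  | zero => simp [h.one]
  | succ k ih => rw [pow_succ, h.mul _ (N.pow_mem hx k) _ hx, ih, pow_succ]

end general

theorem two_le_card {n p o : ℕ} (hn : Squarefree n) (ho : o ∣ n) (hp : p.Prime) (hpo : p ∣ o)
    (hne : o ≠ p) : 2 ≤ o.primeFactors.card := by
  obtain ⟨b, rfl⟩ := hpo
  rw [card_mul hn ho, hp.primeFactors, Finset.card_singleton]
  have h0 : b ≠ 0 := by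
    rintro rfl
    rw [mul_zero] at ho
    exact hn.ne_zero (Nat.eq_zero_of_zero_dvd ho)
  have h1 : b ≠ 1 := by
    rintro rfl
    exact hne (mul_one p)
  have := card_pos_of_ne_one h0 h1
  omega

/-- on a tight section there are no nontrivial fixed points -/
theorem State.fixstep {X : Type u} [Nontrivial X] {n p k : ℕ} (hn : Squarefree n)
    {φ : MulAut (Burn X n)} {N0 N1 : Subgroup (Burn X n)} {L : ℕ} (h : State n p k φ N0 N1)
    (hL : Ord φ N0 N1 L) (hkL : k.primeFactors.card ≤ L.primeFactors.card) {s : ℕ}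
    (hs : s.Prime) (hsL : s ∣ L) (hsk : ¬ s ∣ k) (hpL : ¬ p ∣ L) {c : Burn X n} (hc0 : c ∈ N0)
    (hc1 : c ∉ N1) (hc : φ c * c⁻¹ ∈ N1) : False := by
  classical
  have hn1 : n ≠ 0 := hn.ne_zero
  have hn0 : 0 < n := Nat.pos_of_ne_zero hn1
  have : Fact s.Prime := ⟨hs⟩
  have : Fact p.Prime := ⟨h.prime⟩
  have hLn := h.ord_dvd hL
  have hL0 : 0 < L := Nat.pos_of_dvd_of_pos hLn hn0
  have hks : k * s ∣ n := sf_dvd_mul h.kn hs (hsL.trans hLn) hsk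
  let K := AlgebraicClosure (ZMod s)
  have hp : ((p : ℕ) : K) ≠ 0 := by
    rw [Ne, CharP.cast_eq_zero_iff K s]
    intro h6
    rw [(Nat.prime_dvd_prime_iff_eq hs h.prime).1 h6] at hsk
    exact hsk h.pk
  obtain ⟨χ, hχ, hχ1, hχreg, hχc⟩ := h.exists_chi hL hn0 hpL hc0 hc1 hc
  obtain ⟨ψ, hψ0, hψa, hψi⟩ := exists_psi (K := K) hp
  let ξ : Burn X n → K := fun x => ψ (χ x)
  have hξ : CharOn N0 ξ := ⟨by simp [ξ, hχ.one, hψ0], fun x hx y hy => by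
    simp only [ξ, hχ x hx y hy, hψa]⟩
  have hξ1 : ∀ x ∈ N1, ξ x = 1 := fun x hx => by simp only [ξ, hχ1 x hx, hψ0]
  have hreg : ∀ j, (∀ g ∈ N0, ξ ((φ ^ j) g) = ξ g) ↔ L ∣ j := by
    intro j
    rw [← hχreg]
    exact ⟨fun h4 g hg => hψi (h4 g hg), fun h4 g hg => by simp only [ξ, h4 g hg]⟩
  have hmem : ∀ j, ∀ x ∈ N0, (φ ^ j) x ∈ N0 := fun j x hx => (h.inv0.pow j x).2 hx
  obtain ⟨hmK, θ, hθ, hθ0, μ0, hμ01, hμ0ne, hμ0⟩ :=
    h.exists_theta hn hLn hs hsL hks hξ hξ1 hreg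
  -- the value at `c`
  have hξc : ξ c ≠ 1 := by
    intro h1
    apply hχc
    apply hψi
    rw [hψ0]
    exact h1
  have hξcp : ξ c ^ p = 1 := by
    rw [← hξ.pow hc0]
    exact hξ1 _ (h.sec.pow_mem hc0)
  have hprim : IsPrimitiveRoot (ξ c) p := by
    have h1 := orderOf_eq_prime hξcp hξc
    rw [← h1]
    exact IsPrimitiveRoot.orderOf _
  have hη : IsPrimitiveRoot (ξ c ^ L) p :=
    hprim.pow_of_coprime L ((Nat.Prime.coprime_iff_not_dvd h.prime).2 hpL).symm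
  have hξφ : ∀ i j, ξ ((φ ^ j) (c ^ i)) = ξ (c ^ i) := by
    intro i j
    rw [map_pow, hξ.pow (hmem j c hc0), hξ.pow hc0]
    simp only [ξ]
    rw [hχ.eq_of_mem hχ1 (hmem j c hc0) hc0 (pow_sub_mem h.inv1 hc j)]
  -- the twisted automorphisms
  let ε : ℕ → MulAut (Burn X n) := fun i => MulAut.conj (c ^ i) * φ
  have hst : ∀ i, State n p k (ε i) N0 N1 := by
    intro i
    have hci : c ^ i ∈ N0 := N0.pow_mem hc0 i
    refine ⟨h.splits.conj _, h.inv0.conj ?_, h.inv1.conj (h.sec.conj_iff hci), h.prime, h.sec,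
      h.kn, h.pk, h.pow⟩
    intro x
    constructor
    · intro hx
      exact N0.mul_mem (N0.mul_mem hci hx) (N0.inv_mem hci)
    · intro hx
      have h1 := N0.mul_mem (N0.mul_mem (N0.inv_mem hci) hx) hci
      have h2 : (c ^ i)⁻¹ * (c ^ i * x * (c ^ i)⁻¹) * c ^ i = x := by group
      rwa [h2] at h1
  have hnrm : ∀ i j, nrm φ j (c ^ i) ∈ N0 ∧ ξ (nrm φ j (c ^ i)) = ξ (c ^ i) ^ j := fun i j =>
    hξ.nrm h.inv0 (N0.pow_mem hc0 i) (hξφ i) j
  have hεpow : ∀ i j x, ((ε i) ^ j) x = nrm φ j (c ^ i) * (φ ^ j) x * (nrm φ j (c ^ i))⁻¹ := by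
    intro i j x
    simp only [ε]
    rw [conj_pow_aut]
    rfl
  have hregi : ∀ i j, (∀ g ∈ N0, ξ (((ε i) ^ j) g) = ξ g) ↔ L ∣ j := by
    intro i j
    rw [← hreg]
    constructor
    · intro h1 g hg
      rw [← h1 g hg, hεpow, hξ.conj (hnrm i j).1 (hmem j g hg)]
    · intro h1 g hg
      rw [hεpow, hξ.conj (hnrm i j).1 (hmem j g hg), h1 g hg]
  have hμi : ∀ i x, θ (((ε i) ^ L) x) = ((ξ c ^ L) ^ i * μ0) * θ x := by
    intro i x
    by_cases hx : x ∈ N1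
    · rw [hεpow, hθ.2.2 _ (hnrm i L).1 _ ((h.inv1.pow L x).2 hx), (hnrm i L).2, hμ0,
        hξ.pow hc0, ← pow_mul, ← pow_mul, mul_comm i L]
      ring
    · have h1 : ((ε i) ^ L) x ∉ N1 := by
        rwa [(hst i).inv1.pow]
      rw [hθ.2.1 _ h1, hθ.2.1 _ hx, mul_zero]
  have hne1 : ∀ i, (ξ c ^ L) ^ i * μ0 ≠ 1 := fun i =>
    eigen_ne_one (hst i).splits (hst i).inv0 (hst i).inv1 (hst i).conj hξ hLn hL0 (hregi i) hmK
      hθ hθ0 (hμi i)
  have hμ0p : μ0 ^ p ≠ 1 := by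
    intro h1
    have : NeZero p := ⟨h.prime.ne_zero⟩
    obtain ⟨a, ha, ha1⟩ := hη.eq_pow_of_pow_eq_one h1
    apply hne1 (p - a)
    rw [← ha1, ← pow_add, Nat.sub_add_cancel ha.le, hη.pow_eq_one]
  -- choose the right twist
  obtain ⟨i, hi1, hi2⟩ : ∃ i, p ∣ orderOf ((ξ c ^ L) ^ i * μ0) ∧
      orderOf ((ξ c ^ L) ^ i * μ0) ≠ p := by
    have hnep : ∀ i, orderOf ((ξ c ^ L) ^ i * μ0) ≠ p := by
      intro i h1
      have h2 := pow_orderOf_eq_one ((ξ c ^ L) ^ i * μ0)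
      rw [h1, mul_pow, ← pow_mul, mul_comm i p, pow_mul, hη.pow_eq_one, one_pow, one_mul] at h2
      exact hμ0p h2
    by_cases h1 : p ∣ orderOf μ0
    · exact ⟨0, by simpa using h1, hnep 0⟩
    · refine ⟨1, ?_, hnep 1⟩
      rw [pow_one]
      have h2 : Nat.Coprime (orderOf (ξ c ^ L)) (orderOf μ0) := by
        rw [← hη.eq_orderOf]
        exact (Nat.Prime.coprime_iff_not_dvd h.prime).2 h1
      rw [(Commute.all _ _).orderOf_mul_eq_mul_orderOf_of_coprime h2, ← hη.eq_orderOf]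
      exact dvd_mul_right _ _
  obtain ⟨L', hL'n, hL'⟩ := exists_order (N1 := kerS s N1) (hst i).inv1 hn0
    (hst i).splits.pow_eq
  have h1 : L * orderOf ((ξ c ^ L) ^ i * μ0) ∣ L' :=
    (hst i).next_ord (s := s) (hregi i) hθ hθ0 (hμi i) hL'
  have hL'0 : L' ≠ 0 := fun h => hn1 (Nat.eq_zero_of_zero_dvd (h ▸ hL'n))
  have h2 := card_le_of_dvd hL'0 h1
  have hLo := h1.trans hL'n
  rw [card_mul hn hLo] at h2
  have h3 := two_le_card hn ((dvd_mul_left _ _).trans hLo) h.prime hi1 hi2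
  have h4 := card_mul hn hks
  rw [hs.primeFactors, Finset.card_singleton] at h4
  have h5 := ((hst i).next hs hks).ahead hn hL'
  omega

end Pool.Agent.Helper13.Spl
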