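import Pool.Agent.Helper13.Spl.StepB

/-!
# Semisimple action of small prime order
-/

set_option autoImplicit false

namespace Pool.Agent.Helper13.Spl

universe u v

theorem Sec.nrm_fix {G : Type u} [Group G] {p : ℕ} {N0 N1 : Subgroup G} (h : Sec p N0 N1)
    {ε : MulAut G} (h0 : Inv ε N0) {L : ℕ} (hL : ∀ x ∈ N0, (ε ^ L) x * x⁻¹ ∈ N1) {u : G}
    (hu : u ∈ N0) : nrm ε L u ∈ N0 ∧ ε (nrm ε L u) * (nrm ε L u)⁻¹ ∈ N1 := by
  have hmem : nrm ε L u ∈ N0 := by
    have h1 : AddOn N0 (fun _ : G => (0 : ℤ)) := fun x _ y _ => by simp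
    exact (h1.nrm h0 hu L).1
  refine ⟨hmem, ?_⟩
  by_contra hcon
  have hmem2 : ε (nrm ε L u) ∈ N0 := (h0 _).2 hmem
  obtain ⟨χ, h1, h2, h3⟩ := h.sep _ (N0.mul_mem hmem2 (N0.inv_mem hmem)) hcon
  apply h3
  have h4 : χ (ε (nrm ε L u)) = ∑ i ∈ Finset.range L, χ (ε ((ε ^ i) u)) :=
    ((h1.comp h0).nrm h0 hu L).2
  have h5 := (h1.nrm h0 hu L).2
  rw [h1 _ hmem2 _ (N0.inv_mem hmem), h1.inv hmem, h4, h5]
  have h6 : ∀ i, ε ((ε ^ i) u) = (ε ^ (i + 1)) u := by
    intro i
    rw [pow_succ']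
    rfl
  simp only [h6]
  have h7 := Finset.sum_range_succ (fun j => χ ((ε ^ j) u)) L
  rw [Finset.sum_range_succ'] at h7
  have h8 : χ ((ε ^ L) u) = χ u := h1.eq_of_mem h2 ((h0.pow L u).2 hu) hu (hL u hu)
  rw [h8, pow_zero, MulAut.one_apply, add_left_inj] at h7
  rw [h7, add_neg_cancel]

theorem exists_add {X : Type u} {n q : ℕ} (hq : q ∣ n) {K : Type v} [Field K] [CharP K q]
    (f : X → K) : ∃ θ : Burn X n → K, AddOn ⊤ θ ∧
      ∀ x, θ (Burn.mk X n (FreeGroup.of x)) = f x := by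
  let g : FreeGroup X →* Multiplicative K := FreeGroup.lift fun x => Multiplicative.ofAdd (f x)
  have hg : ∀ w ∈ powRel X n, g w = 1 := by
    intro w hw
    have h1 : powRel X n ≤ g.ker := by
      apply Subgroup.normalClosure_le_normal
      rintro _ ⟨w, rfl⟩
      rw [SetLike.mem_coe, MonoidHom.mem_ker, map_pow]
      apply Multiplicative.toAdd.injective
      rw [toAdd_pow, toAdd_one, nsmul_eq_mul, (CharP.cast_eq_zero_iff K q n).2 hq, zero_mul]
    exact h1 hw
  let h : Burn X n →* Multiplicative K := QuotientGroup.lift (powRel X n) g hg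
  refine ⟨fun x => Multiplicative.toAdd (h x), ?_, ?_⟩
  · intro x _ y _
    simp only [map_mul, toAdd_mul]
  · intro x
    have h1 : h (Burn.mk X n (FreeGroup.of x)) = g (FreeGroup.of x) := rfl
    simp only [h1, g, FreeGroup.lift_apply_of, toAdd_ofAdd]

/-- the space of additive functions on the whole group -/
def Ws (G : Type u) [Group G] (K : Type v) [Field K] : Submodule K (G → K) where
  carrier := {θ | AddOn ⊤ θ}
  add_mem' := by
    intro a b ha hb x hx y hy
    simp only [Pi.add_apply, ha x hx y hy, hb x hx y hy]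
    ring
  zero_mem' := fun x _ y _ => by simp
  smul_mem' := by
    intro c a ha x hx y hy
    simp only [Pi.smul_apply, smul_eq_mul, ha x hx y hy]
    ring

/-- the standing situation on the abelianization -/
theorem State.base {X : Type u} {n : ℕ} {φ : MulAut (Burn X n)} (hφ : Splits n φ) {q : ℕ}
    (hq : q.Prime) (hqn : q ∣ n) : State n q q φ ⊤ (kerS q ⊤) where
  splits := hφ
  inv0 := fun x => by simp
  inv1 := Inv.kerS (fun x => by simp) q
  prime := hq
  sec := sec_kerS q ⊤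
  kn := hqn
  pk := dvd_rfl
  pow := by
    intro g
    have h1 := pow_mem_kerS (s := q) (k := 1) (N := (⊤ : Subgroup (Burn X n)))
      (fun g => trivial) g
    rwa [one_mul] at h1

/-- two independent eigenfunctions -/
theorem exists_pair_eigen {X : Type u} [Nontrivial X] {n : ℕ} {φ : MulAut (Burn X n)} {q : ℕ}
    (hq : q.Prime) (hqn : q ∣ n) {t : ℕ} (ht : t.Prime) (htq : t ≠ q)
    (hL : Ord φ ⊤ (kerS q ⊤) t) {K : Type v} [Field K] [IsAlgClosed K] [CharP K q] :
    ∃ (θ0 θ1 : Burn X n → K) (a b : K), AddOn ⊤ θ0 ∧ AddOn ⊤ θ1 ∧ (∀ x, θ0 (φ x) = a * θ0 x) ∧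
      (∀ x, θ1 (φ x) = b * θ1 x) ∧ IsPrimitiveRoot a t ∧ b ^ t = 1 ∧
      ∃ x y, θ0 x * θ1 y - θ0 y * θ1 x ≠ 0 ∧ θ0 x ≠ 0 := by
  classical
  have : Fact q.Prime := ⟨hq⟩
  have htK : (t : K) ≠ 0 := by
    rw [Ne, CharP.cast_eq_zero_iff K q]
    intro h
    exact htq ((Nat.prime_dvd_prime_iff_eq hq ht).1 h).symm
  obtain ⟨ω, hω⟩ := exists_root htK
  have hqK : ∀ a : K, q • a = 0 := by
    intro a
    rw [nsmul_eq_mul, CharP.cast_eq_zero, zero_mul]
  have hT : ∀ θ ∈ Ws (Burn X n) K, (compLin K φ ^ t) θ = θ := by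
    intro θ hθ
    rw [compLin_pow]
    funext x
    exact AddOn.eq_of_mem hθ (fun y hy => kerS_eq_zero hqK hθ hy) trivial trivial
      ((hL t).2 dvd_rfl x trivial)
  have hW : ∀ θ ∈ Ws (Burn X n) K, compLin K φ θ ∈ Ws (Burn X n) K := by
    intro θ hθ
    exact AddOn.comp hθ (fun x => by simp)
  have hdec := fun θ hθ => eigen_decomp (compLin K φ) ht.pos htK hω (Ws (Burn X n) K) hW hT
    (x := θ) hθ
  -- a nontrivial eigenvalue
  obtain ⟨θ0, j0, hθ0, hj0, hj0t, he0, hne0⟩ : ∃ (θ0 : Burn X n → K) (j : ℕ),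
      θ0 ∈ Ws (Burn X n) K ∧ j ≠ 0 ∧ j < t ∧ compLin K φ θ0 = ω ^ j • θ0 ∧ θ0 ≠ 0 := by
    have h1 : ¬ ∀ x ∈ (⊤ : Subgroup (Burn X n)), (φ ^ 1) x * x⁻¹ ∈ kerS q ⊤ := by
      rw [hL 1]
      exact ht.one_lt.ne' ∘ Nat.dvd_one.1
    push Not at h1
    obtain ⟨x, -, hx⟩ := h1
    obtain ⟨χ, h2, h3, h4⟩ := (sec_kerS q (⊤ : Subgroup (Burn X n))).sep _ trivial hx
    let ι : ZMod q →+* K := ZMod.castHom (dvd_refl q) K
    have hι : Function.Injective ι := ι.injective
    have hθ : (fun x => ι (χ x)) ∈ Ws (Burn X n) K := by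
      intro a ha b hb
      simp only [h2 a ha b hb, map_add]
    obtain ⟨f, hf1, hf2, hf3⟩ := hdec _ hθ
    by_contra hcon
    push Not at hcon
    have h5 : ∀ j ∈ Finset.range t, compLin K φ (f j) = f j := by
      intro j hj
      by_cases hj0 : j = 0
      · rw [hf2, hj0, pow_zero, one_smul]
      · have h6 := hcon (f j) j (hf1 j) hj0 (Finset.mem_range.1 hj) (hf2 j)
        rw [h6, map_zero]
    have h6 : compLin K φ (fun x => ι (χ x)) = fun x => ι (χ x) := by
      rw [← hf3, map_sum]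
      exact Finset.sum_congr rfl h5
    have h7 : χ (φ x) = χ x := hι (congrFun h6 x)
    apply h4
    rw [pow_one, h2 _ trivial _ trivial, h2.inv trivial, h7, add_neg_cancel]
  -- a second eigenfunction
  obtain ⟨θ1, j1, hθ1, he1, hind⟩ : ∃ (θ1 : Burn X n → K) (j : ℕ),
      θ1 ∈ Ws (Burn X n) K ∧ compLin K φ θ1 = ω ^ j • θ1 ∧ ∀ c : K, θ1 ≠ c • θ0 := by
    by_contra hcon
    push Not at hcon
    have h1 : ∀ θ ∈ Ws (Burn X n) K, ∃ c : K, θ = c • θ0 := by
      intro θ hθ
      obtain ⟨f, hf1, hf2, hf3⟩ := hdec _ hθ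
      choose c hc using fun j => hcon (f j) j (hf1 j) (hf2 j)
      refine ⟨∑ j ∈ Finset.range t, c j, ?_⟩
      rw [← hf3, Finset.sum_smul]
      exact Finset.sum_congr rfl fun j _ => hc j
    obtain ⟨a, b, hab⟩ := exists_pair_ne X
    obtain ⟨α, hα, hα1⟩ := exists_add (K := K) hqn (fun x : X => if x = a then 1 else 0)
    obtain ⟨β, hβ, hβ1⟩ := exists_add (K := K) hqn (fun x : X => if x = b then 1 else 0)
    obtain ⟨c, hc⟩ := h1 α hα
    obtain ⟨d, hd⟩ := h1 β hβ
    have e1 := hα1 a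
    have e2 := hα1 b
    have e3 := hβ1 b
    rw [hc] at e1 e2
    rw [hd] at e3
    simp only [Pi.smul_apply, smul_eq_mul, if_true, if_neg hab.symm] at e1 e2 e3
    rcases mul_eq_zero.1 e2 with e4 | e4
    · rw [e4, zero_mul] at e1
      exact zero_ne_one e1
    · rw [e4, mul_zero] at e3
      exact zero_ne_one e3
  refine ⟨θ0, θ1, ω ^ j0, ω ^ j1, hθ0, hθ1, fun x => congrFun he0 x, fun x => congrFun he1 x,
    hω.pow_of_coprime j0 ?_, ?_, ?_⟩
  · exact ((Nat.Prime.coprime_iff_not_dvd ht).2 fun h =>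
      absurd (Nat.le_of_dvd (Nat.pos_of_ne_zero hj0) h) (not_le.2 hj0t)).symm
  · rw [← pow_mul, mul_comm, pow_mul, hω.pow_eq_one, one_pow]
  · obtain ⟨x, hx⟩ : ∃ x, θ0 x ≠ 0 := by
      by_contra hcon
      push Not at hcon
      exact hne0 (funext hcon)
    by_contra hcon
    push Not at hcon
    apply hind (θ1 x / θ0 x)
    funext y
    have h1 : θ0 x * θ1 y - θ0 y * θ1 x = 0 := by
      by_contra h2
      exact hx (hcon x y h2)
    rw [Pi.smul_apply, smul_eq_mul]
    field_simp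
    linear_combination h1

section orb

variable {G : Type u} [Group G]

/-- the largest invariant subgroup -/
def orb (φ : MulAut G) (S : Subgroup G) : Subgroup G :=
  ⨅ j : ℕ, S.comap ((φ ^ j : MulAut G) : G →* G)

theorem mem_orb {φ : MulAut G} {S : Subgroup G} {x : G} :
    x ∈ orb φ S ↔ ∀ j : ℕ, (φ ^ j) x ∈ S := by
  simp [orb, Subgroup.mem_iInf]

theorem inv_orb {φ : MulAut G} {n : ℕ} (hn : 0 < n) (hφ : φ ^ n = 1) (S : Subgroup G) :
    Inv φ (orb φ S) := by
  intro x
  rw [mem_orb, mem_orb]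
  constructor
  · intro h j
    have h1 := h (j + (n - 1))
    have h2 : (φ ^ (j + (n - 1))) (φ x) = (φ ^ j) x := by
      have h3 : φ ^ (j + (n - 1)) * φ = φ ^ j := by
        rw [← pow_succ, show j + (n - 1) + 1 = j + n by omega, pow_add, hφ, mul_one]
      rw [← MulAut.mul_apply, h3]
    rwa [h2] at h1
  · intro h j
    have h1 := h (j + 1)
    rwa [pow_succ, MulAut.mul_apply] at h1

end orb

/-- the order of a splitting automorphism on the abelianization modulo `q` is not a prime smaller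
than `q` -/
theorem stepB2 {X : Type u} [Nontrivial X] {n : ℕ} (hn : Squarefree n) (hodd : Odd n)
    {φ : MulAut (Burn X n)} (hφ : Splits n φ) {q : ℕ} (hq : q.Prime) (hqn : q ∣ n) {t : ℕ}
    (ht : t.Prime) (htq : t < q) (hL : Ord φ ⊤ (kerS q ⊤) t) : False := by
  classical
  have hn0 : 0 < n := Nat.pos_of_ne_zero hn.ne_zero
  have : Fact q.Prime := ⟨hq⟩
  let K := AlgebraicClosure (ZMod q)
  have hst := State.base hφ hq hqn
  have htn : t ∣ n := hst.ord_dvd hL
  have hqt : ¬ q ∣ t := fun h => absurd (Nat.le_of_dvd ht.pos h) (not_le.2 htq)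
  have htq' : ¬ t ∣ q := fun h => htq.ne ((Nat.prime_dvd_prime_iff_eq ht hq).1 h)
  have h2 : t + 2 ≤ q := by
    obtain ⟨c, hc⟩ := hodd.of_dvd_nat htn
    obtain ⟨d, hd⟩ := hodd.of_dvd_nat hqn
    omega
  have hcard : q.primeFactors.card ≤ t.primeFactors.card := by
    rw [hq.primeFactors, ht.primeFactors, Finset.card_singleton, Finset.card_singleton]
  have htK : (t : K) ≠ 0 := by
    rw [Ne, CharP.cast_eq_zero_iff K q]
    exact hqt
  have hqK : ∀ a : K, q • a = 0 := by
    intro a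
    rw [nsmul_eq_mul, CharP.cast_eq_zero, zero_mul]
  obtain ⟨θ0, θ1, a, b, hθ0, hθ1, ha, hb, hat, hbt, x, y, hD, hx0⟩ :=
    exists_pair_eigen (K := K) hq hqn ht htq.ne hL
  have ha2 : ∀ j x, θ0 ((φ ^ j) x) = a ^ j * θ0 x := by
    intro j
    induction j with
    | zero => intro x; simp
    | succ j ih =>
      intro x
      rw [pow_succ', MulAut.mul_apply, ha, ih, pow_succ]
      ring
  have hb2 : ∀ j x, θ1 ((φ ^ j) x) = b ^ j * θ1 x := by
    intro j
    induction j with
    | zero => intro x; simp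
    | succ j ih =>
      intro x
      rw [pow_succ', MulAut.mul_apply, hb, ih, pow_succ]
      ring
  have : NeZero t := ⟨ht.ne_zero⟩
  have hb0 : b ≠ 0 := by
    rintro rfl
    rw [zero_pow ht.ne_zero] at hbt
    exact zero_ne_one hbt
  obtain ⟨i, hit, hi⟩ := hat.eq_pow_of_pow_eq_one (ξ := b⁻¹) (by rw [inv_pow, hbt, inv_one])
  have hib : b * a ^ i = 1 := by rw [hi, mul_inv_cancel₀ hb0]
  rcases Nat.eq_zero_or_pos i with hi0 | hi0
  · rw [hi0, pow_zero, mul_one] at hib
    obtain ⟨u, hu⟩ : ∃ u, θ1 u ≠ 0 := by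
      by_contra hcon
      push Not at hcon
      apply hD
      rw [hcon, hcon]
      ring
    obtain ⟨hc0, hc⟩ := hst.sec.nrm_fix hst.inv0 ((hL t).2 dvd_rfl) (u := u) trivial
    refine hst.fixstep hn hL hcard ht dvd_rfl htq' hqt hc0 ?_ hc
    intro hc1
    have h3 := kerS_eq_zero hqK hθ1 hc1
    rw [(hθ1.nrm hst.inv0 (x := u) trivial t).2] at h3
    simp only [hb2, hib, one_pow, one_mul, Finset.sum_const, Finset.card_range,
      nsmul_eq_mul] at h3
    rcases mul_eq_zero.1 h3 with h4 | h4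
    · exact htK h4
    · exact hu h4
  · obtain ⟨R, _, _, _, z, hz, hz1⟩ := exists_trunc K (m := i + 2) (by omega)
    have hRq : CharP R q := charP_of_injective_algebraMap (algebraMap K R).injective q
    obtain ⟨r0, hr0, hlead0⟩ := exists_test (K := K) (R := R) (N := ⊤) (k := 1) (s := q) hn0
      (by rwa [one_mul]) (fun _ => trivial) hz (by omega) hθ0 hθ1
    let r : Burn X n →* Aff R := MonoidHom.mk' r0 fun x y => hr0 x trivial y trivial
    have hlead : ∀ x, Lead z (θ0 x) (θ1 x) (r x) := fun x => hlead0 x trivial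
    have hr : MulOn (⊤ : Subgroup (Burn X n)) r := fun x _ y _ => map_mul r x y
    let N0 : Subgroup (Burn X n) := orb φ ((Aff.uHom R).comp r).ker
    let N1 : Subgroup (Burn X n) := orb φ r.ker
    have hN0 : ∀ x, x ∈ N0 ↔ ∀ j : ℕ, (r ((φ ^ j) x)).u = 1 := fun x => mem_orb
    have hN1 : ∀ x, x ∈ N1 ↔ ∀ j : ℕ, r ((φ ^ j) x) = 1 := fun x => mem_orb
    have hI0 : Inv φ N0 := inv_orb hn0 hφ.pow_eq _
    have hI1 : Inv φ N1 := inv_orb hn0 hφ.pow_eq _
    have hst2 : State n q q φ N0 N1 := by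
      refine ⟨hφ, hI0, hI1, hq, ⟨?_, ?_⟩, hqn, dvd_rfl, ?_⟩
      · intro x hx
        rw [hN1] at hx
        rw [hN0]
        intro j
        rw [hx j]
        rfl
      · intro w hw hw1
        rw [hN0] at hw
        rw [hN1] at hw1
        push Not at hw1
        obtain ⟨j, hj⟩ := hw1
        have hv : (r ((φ ^ j) w)).v ≠ 0 := by
          intro h3
          apply hj
          ext
          · exact h3
          · rw [hw j]
            rfl
        obtain ⟨f, hf⟩ := sepfun q (M := R) (by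
          intro c
          rw [nsmul_eq_mul, CharP.cast_eq_zero, zero_mul]) hv
        refine ⟨fun y => f (r ((φ ^ j) y)).v, ?_, ?_, hf⟩
        · intro c hc d hd
          rw [hN0] at hc
          simp only [map_mul, Aff.mul_v, hc j, Units.val_one, one_mul, map_add]
        · intro c hc
          rw [hN1] at hc
          simp only [hc j, Aff.one_v, map_zero]
      · intro g
        rw [hN1]
        intro j
        rw [map_pow, map_pow]
        exact (hlead _).pow_eq_one hz (by omega)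
    -- values on iterated commutators
    let D : K := θ0 x * θ1 y - θ0 y * θ1 x
    have hval : ∀ j e : ℕ, (r ((φ ^ j) (itc x (cm x y) e))).u = 1 ∧ ∃ e' : R,
        (r ((φ ^ j) (itc x (cm x y) e))).v =
          algebraMap K R ((a ^ j * b ^ j * (a ^ j) ^ e) * (D * θ0 x ^ e)) * z ^ (e + 1) +
            z ^ (e + 2) * e' := by
      intro j e
      rw [map_itc, map_cm, hr.itc trivial trivial, hr.cm trivial trivial]
      obtain ⟨h3, e', h4⟩ := lead_itc (hlead ((φ ^ j) x)) (hlead ((φ ^ j) y))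
        (hlead ((φ ^ j) x)) e
      refine ⟨h3, e', ?_⟩
      rw [h4]
      congr 3
      simp only [ha2, hb2, D]
      ring
    have hYmem : ∀ e, itc x (cm x y) e ∈ N0 := by
      intro e
      rw [hN0]
      exact fun j => (hval j e).1
    obtain ⟨L, hLn, hL2⟩ := exists_order (N1 := N1) hI0 hn0 hφ.pow_eq
    have htL : t ∣ L := by
      apply hat.dvd_of_pow_eq_one
      have h3 := (hL2 L).2 dvd_rfl _ (hYmem i)
      rw [hN1] at h3
      have h4 := h3 0
      rw [pow_zero, MulAut.one_apply, map_mul, map_inv, mul_inv_eq_one] at h4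
      obtain ⟨-, e1, he1⟩ := hval L i
      obtain ⟨-, e2, he2⟩ := hval 0 i
      rw [pow_zero, MulAut.one_apply] at he2
      rw [h4, he2, hz] at he1
      have h5 : algebraMap K R ((a ^ 0 * b ^ 0 * (a ^ 0) ^ i) * (D * θ0 x ^ i) -
          (a ^ L * b ^ L * (a ^ L) ^ i) * (D * θ0 x ^ i)) * z ^ (i + 1) = 0 := by
        rw [map_sub]
        linear_combination he1
      have h6 := hz1 (i + 1) (by omega) _ h5
      have h7 : a ^ L * b ^ L * (a ^ L) ^ i = a ^ L := by
        have h8 : a ^ L * b ^ L * (a ^ L) ^ i = a ^ L * (b * a ^ i) ^ L := by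
          rw [mul_pow, ← pow_mul a i L, mul_comm i L, pow_mul]
          ring
        rw [h8, hib, one_pow, mul_one]
      rw [h7] at h6
      have h8 : (1 - a ^ L) * (D * θ0 x ^ i) = 0 := by
        rw [← h6]
        ring
      rcases mul_eq_zero.1 h8 with h9 | h9
      · exact (sub_eq_zero.1 h9).symm
      · exact absurd h9 (mul_ne_zero hD (pow_ne_zero _ hx0))
    have hL0 : L ≠ 0 := fun h => hn.ne_zero (Nat.eq_zero_of_zero_dvd (h ▸ hLn))
    have hLt : L = t := by
      have h3 := hst2.ahead hn hL2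
      have h4 := card_le_of_dvd hL0 htL
      rw [hq.primeFactors, Finset.card_singleton] at h3
      rw [ht.primeFactors, Finset.card_singleton] at h4
      exact ((Nat.prime_dvd_prime_iff_eq ht (prime_of_card_one hn hLn (by omega))).1 htL).symm
    subst hLt
    obtain ⟨hc0, hc⟩ := hst2.sec.nrm_fix hI0 ((hL2 L).2 dvd_rfl) (hYmem (i - 1))
    refine hst2.fixstep hn hL2 hcard ht dvd_rfl htq' hqt hc0 ?_ hc
    intro hc1
    rw [hN1] at hc1
    have h3 := hc1 0
    rw [pow_zero, MulAut.one_apply] at h3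
    have h4 := (hr.nrm_v (ε := φ) (fun _ => by simp) (x := itc x (cm x y) (i - 1)) trivial
      (fun j => (hval j (i - 1)).1) L).2
    rw [h3, Aff.one_v] at h4
    choose _ e' he' using fun j => hval j (i - 1)
    simp only [he'] at h4
    have h7 : ∀ j, a ^ j * b ^ j * (a ^ j) ^ (i - 1) = 1 := by
      intro j
      have h8 : a ^ j * b ^ j * (a ^ j) ^ (i - 1) = (b * a ^ i) ^ j := by
        rw [mul_pow, ← pow_mul a i j, mul_comm i j, pow_mul, mul_right_comm, ← pow_succ',
          Nat.sub_add_cancel hi0, mul_comm]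
      rw [h8, hib, one_pow]
    simp only [h7, one_mul] at h4
    rw [Finset.sum_add_distrib, Finset.sum_const, Finset.card_range,
      nsmul_eq_mul, ← Finset.mul_sum, show i - 1 + 1 = i by omega,
      show i - 1 + 2 = i + 1 by omega] at h4
    have h5 : algebraMap K R (L * (D * θ0 x ^ (i - 1))) * z ^ (i + 1) = 0 := by
      have h6 : z ^ (i + 1) * z = 0 := by
        rw [← pow_succ]
        exact hz
      rw [map_mul, map_natCast]
      rw [pow_succ] at h6 ⊢
      rw [pow_succ] at h4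
      linear_combination (-z) * h4 - (∑ j ∈ Finset.range L, e' j) * h6
    have h6 := hz1 (i + 1) (by omega) _ h5
    exact mul_ne_zero htK (mul_ne_zero hD (pow_ne_zero _ hx0)) h6

end Pool.Agent.Helper13.Spl
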