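import Pool.Agent.Helper13.Spl.Core

/-!
# Test homomorphisms into affine groups of truncated polynomial rings
-/

set_option autoImplicit false

namespace Pool.Agent.Helper13.Spl

universe u v

/-- the truncated polynomial ring `K[z] / z ^ m` -/
theorem exists_trunc (K : Type v) [Field K] {m : ℕ} (hm : 0 < m) :
    ∃ (R : Type v) (_ : CommRing R) (_ : Algebra K R) (_ : Nontrivial R) (z : R), z ^ m = 0 ∧
      ∀ j < m, ∀ c : K, algebraMap K R c * z ^ j = 0 → c = 0 := by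
  have h1 : ∀ j < m, ∀ c : K,
      (Polynomial.C c * Polynomial.X ^ j : Polynomial K) ∈ Ideal.span {(Polynomial.X ^ m : Polynomial K)} →
        c = 0 := by
    intro j hj c h
    rw [Ideal.mem_span_singleton] at h
    by_contra hc
    have h2 := Polynomial.natDegree_le_of_dvd h (by
      rw [Ne, mul_eq_zero, not_or]
      exact ⟨by simpa using hc, pow_ne_zero _ Polynomial.X_ne_zero⟩)
    rw [Polynomial.natDegree_X_pow, Polynomial.natDegree_C_mul_X_pow j c hc] at h2
    omega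
  refine ⟨Polynomial K ⧸ Ideal.span {(Polynomial.X ^ m : Polynomial K)}, inferInstance,
    inferInstance, ?_, Ideal.Quotient.mk _ Polynomial.X, ?_, ?_⟩
  · rw [Ideal.Quotient.nontrivial_iff, Ne, Ideal.eq_top_iff_one]
    intro h
    apply one_ne_zero (α := K)
    apply h1 0 hm 1
    simpa using h
  · rw [← map_pow, Ideal.Quotient.eq_zero_iff_mem]
    exact Ideal.subset_span rfl
  · intro j hj c h
    apply h1 j hj c
    rw [← Ideal.Quotient.eq_zero_iff_mem, map_mul, map_pow]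
    exact h

section test

variable {K : Type v} [Field K] {R : Type v} [CommRing R] [Algebra K R]

/-- the leading terms of an element of the affine group -/
def Lead (z : R) (α β : K) (a : Aff R) : Prop :=
  ∃ c d : R, (a.u : R) = 1 + algebraMap K R α * z + z ^ 2 * c ∧ a.v = algebraMap K R β + z * d

theorem Lead.one (z : R) : Lead z (0 : K) (0 : K) (1 : Aff R) :=
  ⟨0, 0, by simp, by simp⟩

theorem Lead.mul {z : R} {α β α' β' : K} {a b : Aff R} (ha : Lead z α β a)
    (hb : Lead z α' β' b) : Lead z (α + α') (β + β') (a * b) := by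
  obtain ⟨c, d, h1, h2⟩ := ha
  obtain ⟨c', d', h3, h4⟩ := hb
  refine ⟨algebraMap K R α * algebraMap K R α' + c + c' +
    z * (algebraMap K R α * c' + algebraMap K R α' * c) + z ^ 2 * c * c',
    d + d' + (algebraMap K R α + z * c) * (algebraMap K R β' + z * d'), ?_, ?_⟩
  · rw [Aff.mul_u, Units.val_mul, h1, h3, map_add]
    ring
  · rw [Aff.mul_v, h1, h2, h4, map_add]
    ring

theorem Lead.inv {z : R} {α β : K} {a : Aff R} (ha : Lead z α β a) :
    Lead z (-α) (-β) a⁻¹ := by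
  obtain ⟨c, d, h1, h2⟩ := ha
  have h3 : (a.u : R) * ((a.u⁻¹ : Rˣ) : R) = 1 := by simp
  refine ⟨((a.u⁻¹ : Rˣ) : R) * (algebraMap K R α ^ 2 - c * (1 - algebraMap K R α * z)),
    algebraMap K R β * ((a.u⁻¹ : Rˣ) : R) * (algebraMap K R α + z * c) - ((a.u⁻¹ : Rˣ) : R) * d,
    ?_, ?_⟩
  · rw [Aff.inv_u, map_neg]
    rw [h1] at h3
    linear_combination (1 - algebraMap K R α * z) * h3
  · rw [Aff.inv_v, h2, map_neg]
    rw [h1] at h3
    linear_combination (-algebraMap K R β) * h3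

theorem Lead.pow_eq_one {z : R} {m s : ℕ} [Fact s.Prime] [CharP R s] (hz : z ^ m = 0)
    (hms : m + 1 ≤ s) {α β : K} {a : Aff R} (ha : Lead z α β a) : a ^ s = 1 := by
  obtain ⟨c, d, h1, -⟩ := ha
  have h2 : (a.u : R) - 1 = z * (algebraMap K R α + z * c) := by
    rw [h1]
    ring
  have h3 : z ^ (s - 1) = 0 := by
    rw [show s - 1 = m + (s - 1 - m) by omega, pow_add, hz, zero_mul]
  have h4 : ((a.u : R) - 1) ^ (s - 1) = 0 := by
    rw [h2, mul_pow, h3, zero_mul]
  ext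
  · rw [Aff.pow_v, geom_sum_char s, h4, zero_mul, Aff.one_v]
  · rw [Aff.pow_u, Units.val_pow_eq_pow_val, Aff.one_u, Units.val_one]
    have h5 := sub_pow_char (a.u : R) 1 (p := s)
    rw [one_pow] at h5
    have h6 : ((a.u : R) - 1) ^ s = 0 := by
      have h7 := (Fact.out : s.Prime).one_le
      rw [show s = (s - 1) + 1 by omega, pow_succ, h4, zero_mul]
    rw [h6] at h5
    exact (sub_eq_zero.1 h5.symm)

/-- existence of test homomorphisms -/
theorem exists_test {X : Type u} [Nontrivial X] {n : ℕ} (hn : 0 < n) {N : Subgroup (Burn X n)}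
    {k s : ℕ} [Fact s.Prime] [CharP R s] (hks : k * s ∣ n) (hk : ∀ g : Burn X n, g ^ k ∈ N)
    {z : R} {m : ℕ} (hz : z ^ m = 0) (hms : m + 1 ≤ s) {θ0 θ1 : Burn X n → K}
    (h0 : AddOn N θ0) (h1 : AddOn N θ1) :
    ∃ r : Burn X n → Aff R, (∀ x ∈ N, ∀ y ∈ N, r (x * y) = r x * r y) ∧
      (∀ x ∈ N, Lead z (θ0 x) (θ1 x) (r x)) := by
  classical
  have hkn : k ∣ n := (dvd_mul_right k s).trans hks
  obtain ⟨I, _, q, hq, hker⟩ := pres.{u, v} hn N hkn hk
  have hqN : ∀ w, q w ∈ N := by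
    intro w
    rw [← hq]
    exact ⟨w, rfl⟩
  have hnil : ∀ c : R, IsNilpotent (c * z) := fun c => ⟨m, by rw [mul_pow, hz, mul_zero]⟩
  let ρ : FreeGroup I →* Aff R := FreeGroup.lift fun i =>
    ⟨algebraMap K R (θ1 (q (FreeGroup.of i))),
      (hnil (algebraMap K R (θ0 (q (FreeGroup.of i))))).isUnit_one_add.unit⟩
  have hlead : ∀ w, Lead z (θ0 (q w)) (θ1 (q w)) (ρ w) := by
    intro w
    induction w using FreeGroup.induction_on with
    | C1 =>
      rw [map_one, map_one, h0.one, h1.one]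
      exact Lead.one z
    | of i =>
      refine ⟨0, 0, ?_, ?_⟩
      · simp [ρ]
      · simp [ρ]
    | inv_of i ih =>
      rw [map_inv, map_inv, h0.inv (hqN _), h1.inv (hqN _)]
      exact ih.inv
    | mul a b iha ihb =>
      rw [map_mul, map_mul, h0 _ (hqN a) _ (hqN b), h1 _ (hqN a) _ (hqN b)]
      exact iha.mul ihb
  obtain ⟨r, hr⟩ := descend q ρ (hker _ ρ (by
    intro w _
    obtain ⟨d, hd⟩ := (Nat.dvd_div_iff_mul_dvd hkn).2 hks
    rw [hd, pow_mul, (hlead w).pow_eq_one hz hms, one_pow]))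
  refine ⟨r, ?_, ?_⟩
  · intro x hx y hy
    rw [← hq] at hx hy
    obtain ⟨a, rfl⟩ := hx
    obtain ⟨b, rfl⟩ := hy
    rw [← map_mul, hr, hr, hr, map_mul]
  · intro x hx
    rw [← hq] at hx
    obtain ⟨a, rfl⟩ := hx
    rw [hr]
    exact hlead a

end test

section iter

variable {G : Type u} [Group G]

/-- iterated commutators -/
def itc (x y : G) : ℕ → G
  | 0 => y
  | j + 1 => x * itc x y j * x⁻¹ * (itc x y j)⁻¹

/-- the commutator -/
def cm (x y : G) : G := x * y * x⁻¹ * y⁻¹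

theorem itc_mem {N : Subgroup G} {x y : G} (hx : x ∈ N) (hy : y ∈ N) (j : ℕ) :
    itc x y j ∈ N := by
  induction j with
  | zero => exact hy
  | succ j ih => exact N.mul_mem (N.mul_mem (N.mul_mem hx ih) (N.inv_mem hx)) (N.inv_mem ih)

theorem cm_mem {N : Subgroup G} {x y : G} (hx : x ∈ N) (hy : y ∈ N) : cm x y ∈ N :=
  N.mul_mem (N.mul_mem (N.mul_mem hx hy) (N.inv_mem hx)) (N.inv_mem hy)

theorem map_cm (ε : MulAut G) (x y : G) : ε (cm x y) = cm (ε x) (ε y) := by
  simp [cm]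

theorem map_itc (ε : MulAut G) (x y : G) (j : ℕ) : ε (itc x y j) = itc (ε x) (ε y) j := by
  induction j with
  | zero => rfl
  | succ j ih => simp [itc, ih]

variable {K : Type v} [Field K] {R : Type v} [CommRing R] [Algebra K R]

/-- maps that are multiplicative on a subgroup -/
def MulOn (N : Subgroup G) (r : G → Aff R) : Prop := ∀ x ∈ N, ∀ y ∈ N, r (x * y) = r x * r y

theorem MulOn.one {N : Subgroup G} {r : G → Aff R} (h : MulOn N r) : r 1 = 1 := by
  have := h 1 N.one_mem 1 N.one_mem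
  rw [mul_one] at this
  exact left_eq_mul.1 this

theorem MulOn.inv {N : Subgroup G} {r : G → Aff R} (h : MulOn N r) {x : G} (hx : x ∈ N) :
    r x⁻¹ = (r x)⁻¹ := by
  have := h x hx x⁻¹ (N.inv_mem hx)
  rw [mul_inv_cancel, h.one] at this
  exact (inv_eq_of_mul_eq_one_right this.symm).symm

theorem MulOn.cm {N : Subgroup G} {r : G → Aff R} (h : MulOn N r) {x y : G} (hx : x ∈ N)
    (hy : y ∈ N) : r (cm x y) = Spl.cm (r x) (r y) := by
  unfold Spl.cm
  rw [h _ (N.mul_mem (N.mul_mem hx hy) (N.inv_mem hx)) _ (N.inv_mem hy),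
    h _ (N.mul_mem hx hy) _ (N.inv_mem hx), h _ hx _ hy, h.inv hx, h.inv hy]

theorem MulOn.itc {N : Subgroup G} {r : G → Aff R} (h : MulOn N r) {x y : G} (hx : x ∈ N)
    (hy : y ∈ N) (j : ℕ) : r (itc x y j) = Spl.itc (r x) (r y) j := by
  induction j with
  | zero => rfl
  | succ j ih =>
    have h1 := itc_mem hx hy j
    change r (x * Spl.itc x y j * x⁻¹ * (Spl.itc x y j)⁻¹) = _
    rw [h _ (N.mul_mem (N.mul_mem hx h1) (N.inv_mem hx)) _ (N.inv_mem h1),
      h _ (N.mul_mem hx h1) _ (N.inv_mem hx), h _ hx _ h1, h.inv hx, h.inv h1, ih]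
    rfl

/-- the leading term of an iterated commutator -/
theorem lead_itc {z : R} {α1 β1 α2 β2 α3 β3 : K} {a1 a2 a3 : Aff R} (h1 : Lead z α1 β1 a1)
    (h2 : Lead z α2 β2 a2) (h3 : Lead z α3 β3 a3) (j : ℕ) :
    (itc a3 (cm a1 a2) j).u = 1 ∧ ∃ e : R, (itc a3 (cm a1 a2) j).v =
      algebraMap K R ((α1 * β2 - α2 * β1) * α3 ^ j) * z ^ (j + 1) + z ^ (j + 2) * e := by
  induction j with
  | zero =>
    refine ⟨Aff.comm_u a1 a2, ?_⟩
    obtain ⟨c1, d1, h11, h12⟩ := h1
    obtain ⟨c2, d2, h21, h22⟩ := h2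
    refine ⟨algebraMap K R α1 * d2 + c1 * (algebraMap K R β2 + z * d2) -
      algebraMap K R α2 * d1 - c2 * (algebraMap K R β1 + z * d1), ?_⟩
    change (a1 * a2 * a1⁻¹ * a2⁻¹).v = _
    rw [Aff.comm_v, h11, h12, h21, h22]
    simp only [map_sub, map_mul, pow_zero, mul_one]
    ring
  | succ j ih =>
    obtain ⟨ih1, e, ih2⟩ := ih
    obtain ⟨c3, d3, h31, h32⟩ := h3
    refine ⟨Aff.comm_u _ _, ?_⟩
    refine ⟨algebraMap K R α3 * e + c3 * (algebraMap K R ((α1 * β2 - α2 * β1) * α3 ^ j)) +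
      z * c3 * e, ?_⟩
    change (a3 * itc a3 (cm a1 a2) j * a3⁻¹ * (itc a3 (cm a1 a2) j)⁻¹).v = _
    rw [Aff.comm_v, ih1, ih2, h31]
    simp only [map_sub, map_mul, map_pow, Units.val_one]
    ring

theorem MulOn.nrm_v {N : Subgroup G} {r : G → Aff R} (h : MulOn N r) {ε : MulAut G}
    (hε : Inv ε N) {x : G} (hx : x ∈ N) (hu : ∀ i, (r ((ε ^ i) x)).u = 1) (k : ℕ) :
    (r (nrm ε k x)).u = 1 ∧ (r (nrm ε k x)).v = ∑ i ∈ Finset.range k, (r ((ε ^ i) x)).v := by
  have hmem : ∀ k, nrm ε k x ∈ N := by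
    intro k
    induction k with
    | zero => exact N.one_mem
    | succ k ih =>
      rw [nrm_succ]
      exact N.mul_mem ih ((hε.pow k x).2 hx)
  induction k with
  | zero => simp [h.one]
  | succ k ih =>
    rw [nrm_succ, h _ (hmem k) _ ((hε.pow k x).2 hx)]
    refine ⟨by rw [Aff.mul_u, ih.1, hu, one_mul], ?_⟩
    rw [Aff.mul_v, ih.1, ih.2, Finset.sum_range_succ, Units.val_one, one_mul]

end iter

end Pool.Agent.Helper13.Spl
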