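import Pool.Agent.Helper13.Spl.Ahead
import Pool.Agent.Helper13.Spl.Test

/-!
# Small eigenvalue orders are impossible, and chains of increasing primes
-/

set_option autoImplicit false

namespace Pool.Agent.Helper13.Spl

universe u v

theorem dedekind_shift {G : Type u} [Group G] {K : Type v} [Field K] {N0 : Subgroup G}
    {ε : MulAut G} (h0 : Inv ε N0) {ξ : G → K} (hξ : CharOn N0 ξ) {L : ℕ}
    (hreg : ∀ j, (∀ g ∈ N0, ξ ((ε ^ j) g) = ξ g) ↔ L ∣ j) {c : ℕ → K}
    (hc : ∀ g ∈ N0, ∑ i ∈ Finset.range L, ξ ((ε ^ i) g) * c i = 0) : ∀ i < L, c i = 0 :=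
  dedekind (L := L) (ξ := fun i g => ξ ((ε ^ i) g)) (fun i _ => hξ.comp (h0.pow i))
    (fun _ hi _ hj h => shift_inj h0 hreg hi hj h) hc

/-- the eigenvalue of `ε ^ L` cannot have order smaller than `s` -/
theorem State.ltrick {X : Type u} [Nontrivial X] {n p k : ℕ} (hn : Squarefree n)
    {ε : MulAut (Burn X n)} {N0 N1 : Subgroup (Burn X n)} (h : State n p k ε N0 N1) {L : ℕ}
    (hLn : L ∣ n) {s : ℕ} (hs : s.Prime) (hks : k * s ∣ n) (hL3 : 3 ≤ L)
    {K : Type v} [Field K] [CharP K s] {ξ : Burn X n → K} (hξ : CharOn N0 ξ)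
    (hreg : ∀ j, (∀ g ∈ N0, ξ ((ε ^ j) g) = ξ g) ↔ L ∣ j) (hm : ((n / L : ℕ) : K) ≠ 0)
    {θ : Burn X n → K} (hθ : θ ∈ Vs N0 N1 ξ) (hne : θ ≠ 0) {μ : K}
    (hμ : ∀ x, θ ((ε ^ L) x) = μ * θ x) {o : ℕ} (ho : 2 ≤ o) (hos : o < s) (hμo : μ ^ o = 1) :
    False := by
  classical
  have hn0 : 0 < n := Nat.pos_of_ne_zero hn.ne_zero
  have : Fact s.Prime := ⟨hs⟩
  obtain ⟨R, _, _, _, z, hz, hz1⟩ := exists_trunc K (m := o) (by omega)
  have hRs : CharP R s := charP_of_injective_algebraMap (algebraMap K R).injective s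
  have hθ1 : AddOn N1 (fun x => θ (ε x)) := hθ.1.comp h.inv1
  obtain ⟨r, hr, hlead⟩ := exists_test (K := K) (R := R) hn0 hks h.pow hz (by omega) hθ.1 hθ1
  have hr' : MulOn N1 r := hr
  have hpow : ∀ i, ∀ x ∈ N1, (ε ^ i) x ∈ N1 := fun i x hx => (h.inv1.pow i x).2 hx
  have hsucc : ∀ (i : ℕ) (x : Burn X n), ε ((ε ^ i) x) = (ε ^ (i + 1)) x := by
    intro i x
    rw [pow_succ']
    rfl
  -- the basic identity
  let A : Burn X n → Burn X n → ℕ → K := fun x2 x3 i =>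
    θ ((ε ^ (i + 1)) x2) * θ ((ε ^ i) x3) ^ (o - 2)
  let B : Burn X n → Burn X n → ℕ → K := fun x2 x3 i =>
    θ ((ε ^ i) x2) * θ ((ε ^ i) x3) ^ (o - 2)
  have key : ∀ x1 ∈ N1, ∀ x2 ∈ N1, ∀ x3 ∈ N1, ∑ i ∈ Finset.range L,
      (θ ((ε ^ i) x1) * A x2 x3 i - θ ((ε ^ (i + 1)) x1) * B x2 x3 i) = 0 := by
    intro x1 hx1 x2 hx2 x3 hx3
    let y := itc x3 (cm x1 x2) (o - 2)
    have hy : y ∈ N1 := itc_mem hx3 (cm_mem hx1 hx2) _
    let f : ℕ → K := fun i =>
      θ ((ε ^ i) x1) * A x2 x3 i - θ ((ε ^ (i + 1)) x1) * B x2 x3 i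
    have hval : ∀ i, (r ((ε ^ i) y)).u = 1 ∧
        (r ((ε ^ i) y)).v = algebraMap K R (f i) * z ^ (o - 1) := by
      intro i
      have h1 : (ε ^ i) y = itc ((ε ^ i) x3) (cm ((ε ^ i) x1) ((ε ^ i) x2)) (o - 2) := by
        rw [map_itc, map_cm]
      rw [h1, hr'.itc (hpow i x3 hx3) (cm_mem (hpow i x1 hx1) (hpow i x2 hx2)),
        hr'.cm (hpow i x1 hx1) (hpow i x2 hx2)]
      obtain ⟨h2, e, h3⟩ := lead_itc (hlead _ (hpow i x1 hx1)) (hlead _ (hpow i x2 hx2))
        (hlead _ (hpow i x3 hx3)) (o - 2)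
      refine ⟨h2, ?_⟩
      rw [h3, show o - 2 + 2 = o by omega, hz, zero_mul, add_zero,
        show o - 2 + 1 = o - 1 by omega]
      congr 2
      simp only [f, A, B, hsucc]
      ring
    have h1 := (hr'.nrm_v h.inv1 hy (fun i => (hval i).1) n).2
    rw [h.splits.norm_eq, hr'.one, Aff.one_v] at h1
    simp only [(hval _).2] at h1
    rw [← Finset.sum_mul, ← map_sum] at h1
    have h2 : ∑ i ∈ Finset.range n, f i = 0 := hz1 (o - 1) (by omega) _ h1.symm
    have h3 := sum_twist (f := f) (L := L) (μ := 1) (by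
      intro i
      have h4 : ∀ x, θ ((ε ^ (i + L)) x) = μ * θ ((ε ^ i) x) := by
        intro x
        rw [add_comm, pow_add, MulAut.mul_apply, hμ]
      have h5 : ∀ x, θ ((ε ^ (i + L + 1)) x) = μ * θ ((ε ^ (i + 1)) x) := by
        intro x
        rw [show i + L + 1 = L + (i + 1) by ring, pow_add, MulAut.mul_apply, hμ]
      simp only [f, A, B, h4, h5]
      have h6 : μ * μ * μ ^ (o - 2) = 1 := by
        rw [← hμo]
        conv_rhs => rw [show o = 2 + (o - 2) by omega, pow_add]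
        ring
      rw [mul_pow]
      linear_combination (θ ((ε ^ i) x1) * θ ((ε ^ (i + 1)) x2) * θ ((ε ^ i) x3) ^ (o - 2) -
        θ ((ε ^ (i + 1)) x1) * θ ((ε ^ i) x2) * θ ((ε ^ i) x3) ^ (o - 2)) * h6) (n / L)
    rw [Nat.mul_div_cancel' hLn, h2] at h3
    rcases mul_eq_zero.1 h3.symm with h4 | h4
    · simp only [one_pow, Finset.sum_const, Finset.card_range, nsmul_eq_mul, mul_one] at h4
      exact absurd h4 hm
    · exact h4
  -- separate the characters in the first variable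
  obtain ⟨L', rfl⟩ : ∃ L', L = L' + 1 := ⟨L - 1, by omega⟩
  have hθc : ∀ i, ∀ g ∈ N0, ∀ x ∈ N1,
      θ ((ε ^ i) (g * x * g⁻¹)) = ξ ((ε ^ i) g) * θ ((ε ^ i) x) := by
    intro i g hg x hx
    simp only [map_mul, map_inv]
    exact hθ.2.2 _ ((h.inv0.pow i g).2 hg) _ (hpow i x hx)
  have hsep : ∀ x1 ∈ N1, ∀ x2 ∈ N1, ∀ x3 ∈ N1,
      θ ((ε ^ 1) x1) * (A x2 x3 1 - B x2 x3 0) = 0 := by
    intro x1 hx1 x2 hx2 x3 hx3
    let c : ℕ → K := fun j => if j = 0 then θ x1 * (A x2 x3 0 - μ * B x2 x3 L')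
      else θ ((ε ^ j) x1) * (A x2 x3 j - B x2 x3 (j - 1))
    have h1 := dedekind_shift h.inv0 hξ hreg (c := c) (by
      intro g hg
      have h2 := key _ (h.conj g hg x1 hx1) x2 hx2 x3 hx3
      simp only [hθc _ g hg x1 hx1] at h2
      rw [Finset.sum_sub_distrib, Finset.sum_range_succ', Finset.sum_range_succ (n := L')] at h2
      have h3 : ξ ((ε ^ (L' + 1)) g) = ξ g := (hreg (L' + 1)).2 dvd_rfl g hg
      rw [hμ, h3] at h2
      rw [Finset.sum_range_succ']
      simp only [c, Nat.add_eq_zero_iff, one_ne_zero, and_false, if_false, if_true, pow_zero,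
        MulAut.one_apply, Nat.add_sub_cancel] at h2 ⊢
      have h4 : ∑ i ∈ Finset.range L', ξ ((ε ^ (i + 1)) g) *
          (θ ((ε ^ (i + 1)) x1) * (A x2 x3 (i + 1) - B x2 x3 i)) =
          ∑ i ∈ Finset.range L', ξ ((ε ^ (i + 1)) g) * θ ((ε ^ (i + 1)) x1) * A x2 x3 (i + 1) -
          ∑ i ∈ Finset.range L', ξ ((ε ^ (i + 1)) g) * θ ((ε ^ (i + 1)) x1) * B x2 x3 i := by
        rw [← Finset.sum_sub_distrib]
        apply Finset.sum_congr rfl
        intro i _
        ring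
      rw [h4]
      linear_combination h2) 1 (by omega)
    simpa [c] using h1
  obtain ⟨x0, hx0, hx00⟩ := Vs.exists_ne hθ hne
  have hAB : ∀ x2 ∈ N1, ∀ x3 ∈ N1, A x2 x3 1 = B x2 x3 0 := by
    intro x2 hx2 x3 hx3
    obtain ⟨y0, hy0⟩ := (ε ^ 1).surjective x0
    have hy0N : y0 ∈ N1 := by
      rw [← h.inv1.pow 1 y0, hy0]
      exact hx0
    have h1 := hsep y0 hy0N x2 hx2 x3 hx3
    rw [hy0] at h1
    rcases mul_eq_zero.1 h1 with h2 | h2
    · exact absurd h2 hx00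
    · exact sub_eq_zero.1 h2
  -- separate the characters in the second variable
  obtain ⟨g, hg, hgne⟩ : ∃ g ∈ N0, ξ ((ε ^ 2) g) ≠ ξ g := by
    by_contra hcon
    push Not at hcon
    have := Nat.le_of_dvd (by norm_num) ((hreg 2).1 hcon)
    omega
  have h1 := hAB x0 hx0 x0 hx0
  have h2 := hAB _ (h.conj g hg x0 hx0) x0 hx0
  simp only [A, B, hθc _ g hg x0 hx0] at h1 h2
  simp only [pow_zero, MulAut.one_apply] at h1 h2
  have h3 : (ξ ((ε ^ 2) g) - ξ g) * (θ x0 * θ x0 ^ (o - 2)) = 0 := by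
    linear_combination h2 - ξ ((ε ^ 2) g) * h1
  rcases mul_eq_zero.1 h3 with h4 | h4
  · exact hgne (sub_eq_zero.1 h4)
  · rcases mul_eq_zero.1 h4 with h5 | h5
    · exact hx00 h5
    · exact pow_ne_zero _ hx00 h5

theorem prime_of_card_one {n o : ℕ} (hn : Squarefree n) (ho : o ∣ n)
    (h : o.primeFactors.card = 1) : o.Prime := by
  obtain ⟨l, hl⟩ := Finset.card_eq_one.1 h
  have h1 := Nat.prod_primeFactors_of_squarefree (hn.squarefree_of_dvd ho)
  rw [hl, Finset.prod_singleton] at h1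
  rw [← h1]
  exact Nat.prime_of_mem_primeFactors (by rw [hl]; exact Finset.mem_singleton_self l)

/-- there is no tight section on which a prime larger than all primes of the exponent divides
the order -/
theorem chain {X : Type u} [Nontrivial X] {n : ℕ} (hn : Squarefree n) (hodd : Odd n) (m : ℕ) :
    ∀ {p k : ℕ} {ε : MulAut (Burn X n)} {N0 N1 : Subgroup (Burn X n)} {L s : ℕ},
      n.primeFactors.card ≤ k.primeFactors.card + m → State n p k ε N0 N1 → Ord ε N0 N1 L →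
      k.primeFactors.card ≤ L.primeFactors.card → s.Prime → s ∣ L →
      (∀ l : ℕ, l.Prime → l ∣ k → l < s) → False := by
  have hn0 : n ≠ 0 := hn.ne_zero
  induction m with
  | zero =>
    intro p k ε N0 N1 L s hm hst hL hkL hs hsL hsk
    have hsdk : ¬ s ∣ k := fun h => lt_irrefl _ (hsk s hs h)
    have hks : k * s ∣ n := sf_dvd_mul hst.kn hs (hsL.trans (hst.ord_dvd hL)) hsdk
    have h4 := card_mul hn hks
    rw [hs.primeFactors, Finset.card_singleton] at h4
    have h5 := card_le_of_dvd hn0 hks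
    omega
  | succ m ih =>
    intro p k ε N0 N1 L s hm hst hL hkL hs hsL hsk
    have hLn := hst.ord_dvd hL
    have hL0 : L ≠ 0 := fun h => hn0 (Nat.eq_zero_of_zero_dvd (h ▸ hLn))
    have hk0 : k ≠ 0 := fun h => hn0 (Nat.eq_zero_of_zero_dvd (h ▸ hst.kn))
    have hsdk : ¬ s ∣ k := fun h => lt_irrefl _ (hsk s hs h)
    have hks : k * s ∣ n := sf_dvd_mul hst.kn hs (hsL.trans hLn) hsdk
    have : Fact s.Prime := ⟨hs⟩
    let K := AlgebraicClosure (ZMod s)
    have hp : ((p : ℕ) : K) ≠ 0 := by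
      rw [Ne, CharP.cast_eq_zero_iff K s]
      intro h
      rw [(Nat.prime_dvd_prime_iff_eq hs hst.prime).1 h] at hsdk
      exact hsdk hst.pk
    obtain ⟨ξ, hξ, hξ1, hreg⟩ := hst.exists_xi (K := K) hL (Nat.pos_of_ne_zero hn0) hp
    obtain ⟨hmK, θ, hθ, hθ0, μ, hμ1, hμne, hμ⟩ :=
      hst.exists_theta hn hLn hs hsL hks hξ hξ1 hreg
    obtain ⟨L', hL'n, hL'⟩ := exists_order (N1 := kerS s N1) hst.inv1 (Nat.pos_of_ne_zero hn0)
      hst.splits.pow_eq
    have h1 : L * orderOf μ ∣ L' := hst.next_ord (s := s) hreg hθ hθ0 hμ hL'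
    have hL'0 : L' ≠ 0 := fun h => hn0 (Nat.eq_zero_of_zero_dvd (h ▸ hL'n))
    have h2 : (L * orderOf μ).primeFactors.card ≤ L'.primeFactors.card := card_le_of_dvd hL'0 h1
    have hLo : L * orderOf μ ∣ n := h1.trans hL'n
    rw [card_mul hn hLo] at h2
    have h3 : 1 ≤ (orderOf μ).primeFactors.card := by
      apply card_pos_of_ne_one
      · intro h
        rw [h, mul_zero] at h1
        exact hL'0 (Nat.eq_zero_of_zero_dvd h1)
      · rwa [Ne, orderOf_eq_one_iff]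
    have h4 := card_mul hn hks
    rw [hs.primeFactors, Finset.card_singleton] at h4
    have h5 := (hst.next hs hks).ahead hn hL'
    have hoprime : (orderOf μ).Prime :=
      prime_of_card_one hn ((dvd_mul_left _ _).trans hLo) (by omega)
    have hsodd : 3 ≤ s := by
      have h6 : Odd s := hodd.of_dvd_nat (hsL.trans hLn)
      have h7 := hs.two_le
      rcases h6 with ⟨a, ha⟩
      omega
    have hone : s ≠ orderOf μ := by
      intro h6
      have h7 : s * s ∣ n := (mul_dvd_mul hsL (h6 ▸ dvd_rfl)).trans hLo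
      exact hs.not_isUnit (hn s h7)
    rcases lt_or_gt_of_ne hone with h6 | h6
    · refine ih (by omega) (hst.next hs hks) hL' (by omega) hoprime
        ((dvd_mul_left _ _).trans h1) ?_
      intro l hl hlk
      rcases (Nat.Prime.dvd_mul hl).1 hlk with h7 | h7
      · exact (hsk l hl h7).trans h6
      · rw [(Nat.prime_dvd_prime_iff_eq hl hs).1 h7]
        exact h6
    · exact hst.ltrick hn hLn hs hks (hsodd.trans (Nat.le_of_dvd (Nat.pos_of_ne_zero hL0) hsL))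
        hξ hreg hmK hθ hθ0 hμ hoprime.two_le h6 (pow_orderOf_eq_one μ)

end Pool.Agent.Helper13.Spl
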