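import Pool.Agent.Helper13.Spl.StepB2

/-!
# Unipotent action
-/

set_option autoImplicit false

namespace Pool.Agent.Helper13.Spl

universe u v

theorem weighted_sum_char {R : Type u} [CommRing R] (p : ℕ) [hp : Fact p.Prime] [CharP R p]
    (x : R) :
    ∑ l ∈ Finset.range p, (l : R) * x ^ l = -(x * (x - 1) ^ (p - 2)) := by
  have key : ∑ l ∈ Finset.range p, (Polynomial.C (l : ZMod p)) *
      (Polynomial.X : Polynomial (ZMod p)) ^ l =
      -(Polynomial.X * (Polynomial.X - 1) ^ (p - 2)) := by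
    have h1 := geom_sum_char p (Polynomial.X : Polynomial (ZMod p))
    have h2 := congrArg Polynomial.derivative h1
    have h3 : (Polynomial.X - 1 : Polynomial (ZMod p)) =
        Polynomial.X - Polynomial.C 1 := by simp
    rw [Polynomial.derivative_sum, h3, Polynomial.derivative_X_sub_C_pow] at h2
    have h4 := congrArg (fun f => Polynomial.X * f) h2
    simp only [Finset.mul_sum] at h4
    have h5 : ∀ l ∈ Finset.range p, Polynomial.X *
        Polynomial.derivative ((Polynomial.X : Polynomial (ZMod p)) ^ l) =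
        Polynomial.C (l : ZMod p) * Polynomial.X ^ l := by
      intro l _
      rw [Polynomial.derivative_X_pow]
      rcases l with _ | l
      · simp
      · rw [Nat.add_sub_cancel, pow_succ]
        ring
    rw [Finset.sum_congr rfl h5] at h4
    rw [h4, h3]
    have h6 : (Polynomial.C ((p - 1 : ℕ) : ZMod p)) = (-1 : Polynomial (ZMod p)) := by
      rw [Nat.cast_sub hp.out.one_le, CharP.cast_eq_zero, Nat.cast_one, zero_sub,
        Polynomial.C_neg, Polynomial.C_1]
    rw [h6, show p - 1 - 1 = p - 2 by omega]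
    ring
  have h2 := congrArg (Polynomial.eval₂ (ZMod.castHom (dvd_refl p) R) x) key
  simpa [Polynomial.eval₂_finsetSum, Polynomial.eval₂_pow, Polynomial.eval₂_sub,
    Polynomial.eval₂_mul] using h2

theorem exists_jordan {G : Type u} [Group G] {φ : MulAut G} {q : ℕ} [hq : Fact q.Prime]
    (hL : Ord φ ⊤ (kerS q (⊤ : Subgroup G)) q) :
    ∃ θ0 θ1 : G → ZMod q, AddOn ⊤ θ0 ∧ AddOn ⊤ θ1 ∧ (∃ g, θ0 g ≠ 0) ∧
      (∀ x, θ0 (φ x) = θ0 x) ∧ (∀ x, θ1 (φ x) = θ1 x + θ0 x) := by
  classical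
  let T : Module.End (ZMod q) (G → ZMod q) := compLin (ZMod q) φ
  have hDW : ∀ θ ∈ Ws G (ZMod q), (T - 1) θ ∈ Ws G (ZMod q) := by
    intro θ hθ
    exact (Ws G (ZMod q)).sub_mem (AddOn.comp hθ (fun x => by simp)) hθ
  have hpow : (T - 1) ^ q = T ^ q - 1 := by
    have h1 : ((Polynomial.X - 1 : Polynomial (ZMod q))) ^ q = Polynomial.X ^ q - 1 := by
      have := sub_pow_char (R := Polynomial (ZMod q)) (p := q) Polynomial.X 1
      rw [this, one_pow]
    have h2 := congrArg (Polynomial.aeval T) h1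
    simpa using h2
  have h1 : ¬ ∀ x ∈ (⊤ : Subgroup G), (φ ^ 1) x * x⁻¹ ∈ kerS q ⊤ := by
    rw [hL 1]
    exact hq.out.one_lt.ne' ∘ Nat.dvd_one.1
  push Not at h1
  obtain ⟨x, -, hx⟩ := h1
  obtain ⟨χ, h2, h3, h4⟩ := (sec_kerS q (⊤ : Subgroup G)).sep _ trivial hx
  have hχ : χ ∈ Ws G (ZMod q) := h2
  have hDk : ∀ k : ℕ, ((T - 1) ^ k) χ ∈ Ws G (ZMod q) := by
    intro k
    induction k with
    | zero => simpa using hχ
    | succ k ih =>
      rw [pow_succ', Module.End.mul_apply]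
      exact hDW _ ih
  have hq0 : ((T - 1) ^ q) χ = 0 := by
    rw [hpow, LinearMap.sub_apply, sub_eq_zero, Module.End.one_apply]
    change (compLin (ZMod q) φ ^ q) χ = χ
    rw [compLin_pow]
    funext y
    exact AddOn.eq_of_mem hχ h3 trivial trivial ((hL q).2 dvd_rfl y trivial)
  have hex : ∃ k : ℕ, ((T - 1) ^ k) χ = 0 := ⟨q, hq0⟩
  let d := Nat.find hex
  have hd : ((T - 1) ^ d) χ = 0 := Nat.find_spec hex
  have hmin : ∀ k < d, ((T - 1) ^ k) χ ≠ 0 := fun k hk => Nat.find_min hex hk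
  have hTχ : χ (φ x) ≠ χ x := by
    intro h5
    apply h4
    rw [pow_one, h2 _ trivial _ trivial, h2.inv trivial, h5, add_neg_cancel]
  have hd2 : 2 ≤ d := by
    by_contra hcon
    have h5 : ((T - 1) ^ (1 : ℕ)) χ = 0 := by
      have h6 : (1 : ℕ) = (1 - d) + d := by omega
      rw [h6, pow_add, Module.End.mul_apply, hd, map_zero]
    rw [pow_one] at h5
    have h6 := congrFun h5 x
    exact hTχ (sub_eq_zero.1 h6)
  have hs1 : (T - 1) (((T - 1) ^ (d - 1)) χ) = 0 := by
    rw [← Module.End.mul_apply, ← pow_succ', Nat.sub_add_cancel (by omega), hd]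
  have hs2 : (T - 1) (((T - 1) ^ (d - 2)) χ) = ((T - 1) ^ (d - 1)) χ := by
    rw [← Module.End.mul_apply, ← pow_succ', show d - 2 + 1 = d - 1 by omega]
  refine ⟨((T - 1) ^ (d - 1)) χ, ((T - 1) ^ (d - 2)) χ, hDk _, hDk _, ?_, ?_, ?_⟩
  · by_contra hcon
    push Not at hcon
    exact hmin (d - 1) (by omega) (funext hcon)
  · intro y
    have h5 := congrFun hs1 y
    exact sub_eq_zero.1 h5
  · intro y
    have h5 := congrFun hs2 y
    exact (sub_eq_iff_eq_add'.1 h5)

theorem one_add_pow_lead {R : Type u} [CommRing R] (z : R) (k : ℕ) :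
    ∃ c : R, (1 + z) ^ k = 1 + k * z + z ^ 2 * c := by
  induction k with
  | zero => exact ⟨0, by simp⟩
  | succ k ih =>
    obtain ⟨c, hc⟩ := ih
    refine ⟨k + c + z * c, ?_⟩
    rw [pow_succ, hc]
    push_cast
    ring

theorem exists_test2 {X : Type u} {n q : ℕ} [hq : Fact q.Prime] (hqn : q ∣ n) {R : Type}
    [CommRing R] [Algebra (ZMod q) R] [CharP R q] {z : R} (hz : z ^ (q - 1) = 0)
    {θ0 θ1 : Burn X n → ZMod q} (h0 : AddOn ⊤ θ0) (h1 : AddOn ⊤ θ1) :
    ∃ r : Burn X n →* Aff R, (∀ g, ((r g).u : R) = (1 + z) ^ (θ0 g).val) ∧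
      ∀ g, ∃ d, (r g).v = algebraMap (ZMod q) R (θ1 g) + z * d := by
  classical
  have hq1 := hq.out.one_le
  have hnil : IsNilpotent z := ⟨q - 1, hz⟩
  have hunit : IsUnit (1 + z) := hnil.isUnit_one_add
  obtain ⟨x, hx⟩ := hunit
  have hxq : x ^ q = 1 := by
    apply Units.ext
    rw [Units.val_pow_eq_pow_val, hx, Units.val_one, add_pow_char, one_pow,
      show q = (q - 1) + 1 by omega, pow_succ, hz, zero_mul, add_zero]
  have hxadd : ∀ a b : ZMod q, x ^ (a + b).val = x ^ a.val * x ^ b.val := by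
    intro a b
    rw [ZMod.val_add, ← pow_add]
    exact (pow_eq_pow_mod _ hxq).symm
  have hxneg : ∀ a : ZMod q, x ^ (-a).val = (x ^ a.val)⁻¹ := by
    intro a
    have h2 := hxadd (-a) a
    rw [neg_add_cancel, ZMod.val_zero, pow_zero] at h2
    exact eq_inv_of_mul_eq_one_left h2.symm
  let ρ : FreeGroup X →* Aff R := FreeGroup.lift fun i =>
    ⟨algebraMap (ZMod q) R (θ1 (Burn.mk X n (FreeGroup.of i))),
      x ^ (θ0 (Burn.mk X n (FreeGroup.of i))).val⟩
  have hP : ∀ w, (ρ w).u = x ^ (θ0 (Burn.mk X n w)).val ∧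
      Lead z (θ0 (Burn.mk X n w)) (θ1 (Burn.mk X n w)) (ρ w) := by
    intro w
    induction w using FreeGroup.induction_on with
    | C1 =>
      rw [map_one, map_one, h0.one, h1.one]
      exact ⟨by simp, Lead.one z⟩
    | of i =>
      refine ⟨by simp [ρ], ?_⟩
      obtain ⟨c, hc⟩ := one_add_pow_lead z (θ0 (Burn.mk X n (FreeGroup.of i))).val
      refine ⟨c, 0, ?_, ?_⟩
      · have h2 : (ρ (FreeGroup.of i)).u = x ^ (θ0 (Burn.mk X n (FreeGroup.of i))).val := by
          simp [ρ]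
        rw [h2, Units.val_pow_eq_pow_val, hx, hc]
        congr 2
        rw [← map_natCast (algebraMap (ZMod q) R), ZMod.natCast_zmod_val]
      · simp [ρ]
    | inv_of i ih =>
      rw [map_inv, map_inv, h0.inv trivial, h1.inv trivial]
      exact ⟨by rw [Aff.inv_u, ih.1, hxneg], ih.2.inv⟩
    | mul a b iha ihb =>
      rw [map_mul, map_mul, h0 _ trivial _ trivial, h1 _ trivial _ trivial]
      exact ⟨by rw [Aff.mul_u, iha.1, ihb.1, hxadd], iha.2.mul ihb.2⟩
  have hkill : ∀ w ∈ powRel X n, ρ w = 1 := by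
    intro w hw
    have h2 : powRel X n ≤ ρ.ker := by
      apply Subgroup.normalClosure_le_normal
      rintro _ ⟨w, rfl⟩
      rw [SetLike.mem_coe, MonoidHom.mem_ker, map_pow]
      obtain ⟨d, rfl⟩ := hqn
      rw [pow_mul, (hP w).2.pow_eq_one hz (by omega), one_pow]
    exact h2 hw
  let r : Burn X n →* Aff R := QuotientGroup.lift (powRel X n) ρ hkill
  have hr : ∀ w, r (Burn.mk X n w) = ρ w := fun w => rfl
  refine ⟨r, ?_, ?_⟩
  · intro g
    obtain ⟨w, rfl⟩ := Burn.mk_surj X n g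
    rw [hr, (hP w).1, Units.val_pow_eq_pow_val, hx]
  · intro g
    obtain ⟨w, rfl⟩ := Burn.mk_surj X n g
    obtain ⟨c, d, -, hd⟩ := (hP w).2
    exact ⟨d, by rw [hr, hd]⟩

theorem sum_range_zmod {q : ℕ} [hq : Fact q.Prime] (f : ZMod q → ZMod q) :
    ∑ i ∈ Finset.range q, f (i : ZMod q) = ∑ a : ZMod q, f a := by
  refine (Finset.sum_nbij' (fun a : ZMod q => a.val) (fun i : ℕ => (i : ZMod q)) ?_ ?_ ?_ ?_
    ?_).symm
  · intro a _
    exact Finset.mem_range.2 (ZMod.val_lt a)
  · intro i _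
    exact Finset.mem_univ _
  · intro a _
    exact ZMod.natCast_zmod_val a
  · intro i hi
    exact ZMod.val_cast_of_lt (Finset.mem_range.1 hi)
  · intro a _
    rw [ZMod.natCast_zmod_val]

theorem sum_pow_card_sub_one {q : ℕ} [hq : Fact q.Prime] :
    ∑ a : ZMod q, a ^ (q - 1) = -1 := by
  classical
  have h1 : ∀ a : ZMod q, a ^ (q - 1) = 1 - (if a = 0 then 1 else 0) := by
    intro a
    split_ifs with h
    · rw [h, zero_pow (by have := hq.out.two_le; omega), sub_self]
    · rw [ZMod.pow_card_sub_one_eq_one h, sub_zero]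
  simp only [h1]
  rw [Finset.sum_sub_distrib]
  simp

/-- the action on the abelianization modulo `q` is not of order `q` -/
theorem stepD {X : Type u} {n : ℕ} (hn : Squarefree n) (hodd : Odd n)
    {φ : MulAut (Burn X n)} (hφ : Splits n φ) {q : ℕ} (hq : q.Prime) (hqn : q ∣ n)
    (hL : Ord φ ⊤ (kerS q ⊤) q) : False := by
  classical
  have hn0 : 0 < n := Nat.pos_of_ne_zero hn.ne_zero
  have : Fact q.Prime := ⟨hq⟩
  have hq3 : 3 ≤ q := by
    obtain ⟨d, hd⟩ := hodd.of_dvd_nat hqn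
    have := hq.two_le
    omega
  obtain ⟨θ0, θ1, hθ0, hθ1, ⟨g, hg⟩, hφ0, hφ1⟩ := exists_jordan hL
  obtain ⟨y, hy⟩ : ∃ y, θ0 y = 1 := by
    refine ⟨g ^ ((θ0 g)⁻¹).val, ?_⟩
    rw [hθ0.pow trivial, nsmul_eq_mul, ZMod.natCast_zmod_val, inv_mul_cancel₀ hg]
  obtain ⟨R, _, _, _, z, hz, hz1⟩ := exists_trunc (ZMod q) (m := q - 1) (by omega)
  have hRq : CharP R q := charP_of_injective_algebraMap (algebraMap (ZMod q) R).injective q
  obtain ⟨r, hu, hv⟩ := exists_test2 hqn hz hθ0 hθ1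
  have hy0 : ∀ i : ℕ, θ0 ((φ ^ i) y) = 1 := by
    intro i
    induction i with
    | zero => simpa using hy
    | succ i ih => rw [pow_succ', MulAut.mul_apply, hφ0, ih]
  have hy1 : ∀ i : ℕ, θ1 ((φ ^ i) y) = θ1 y + i := by
    intro i
    induction i with
    | zero => simp
    | succ i ih =>
      rw [pow_succ', MulAut.mul_apply, hφ1, ih, hy0]
      push_cast
      ring
  let x : R := 1 + z
  have hui : ∀ i : ℕ, ((r ((φ ^ i) y)).u : R) = x := by
    intro i
    have h1 : (1 : ZMod q).val = 1 := by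
      have : Fact (1 < q) := ⟨hq.one_lt⟩
      exact ZMod.val_one q
    rw [hu, hy0, h1, pow_one]
  let V : ℕ → R := fun i => (r ((φ ^ i) y)).v
  have hnorm : ∀ l k : ℕ, ((r (nrm φ k (y ^ l))).u : R) = x ^ (l * k) ∧
      (r (nrm φ k (y ^ l))).v =
        (∑ m ∈ Finset.range l, x ^ m) * ∑ i ∈ Finset.range k, x ^ (l * i) * V i := by
    intro l k
    induction k with
    | zero => simp
    | succ k ih =>
      have h1 : ((r ((φ ^ k) (y ^ l))).u : R) = x ^ l := by
        rw [map_pow, map_pow, Aff.pow_u, Units.val_pow_eq_pow_val, hui]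
      have h2 : (r ((φ ^ k) (y ^ l))).v = (∑ m ∈ Finset.range l, x ^ m) * V k := by
        rw [map_pow, map_pow, Aff.pow_v, hui]
      rw [nrm_succ, map_mul]
      refine ⟨?_, ?_⟩
      · rw [Aff.mul_u, Units.val_mul, ih.1, h1, ← pow_add]
        rfl
      · rw [Aff.mul_v, ih.1, ih.2, h2, Finset.sum_range_succ _ k]
        ring
  have hxm : ∀ m : ℕ, ∃ e, x ^ m = 1 + z * e := by
    intro m
    obtain ⟨c, hc⟩ := one_add_pow_lead z m
    exact ⟨m + z * c, by rw [hc]; ring⟩
  have hS : ∀ l, 1 ≤ l → l < q → ∑ i ∈ Finset.range n, x ^ (l * i) * V i = 0 := by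
    intro l hl1 hlq
    have h1 := (hnorm l n).2
    rw [hφ.norm_eq, map_one, Aff.one_v] at h1
    have h2 : IsUnit (∑ m ∈ Finset.range l, x ^ m) := by
      choose e he using hxm
      simp only [he]
      rw [Finset.sum_add_distrib, ← Finset.mul_sum, Finset.sum_const, Finset.card_range,
        nsmul_eq_mul, mul_one]
      have h3 : (l : ZMod q) ≠ 0 := by
        rw [Ne, ZMod.natCast_eq_zero_iff]
        exact fun h => absurd (Nat.le_of_dvd (by omega) h) (by omega)
      have h4 : IsUnit ((l : ℕ) : R) := by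
        rw [← map_natCast (algebraMap (ZMod q) R)]
        exact (IsUnit.mk0 _ h3).map _
      have h5 : IsNilpotent (z * ∑ i ∈ Finset.range l, e i) :=
        ⟨q - 1, by rw [mul_pow, hz, zero_mul]⟩
      exact h5.isUnit_add_left_of_commute h4 (Commute.all _ _)
    exact (h2.mul_right_eq_zero.1 h1.symm)
  have hT : ∑ i ∈ Finset.range n, x ^ i * (x ^ i - 1) ^ (q - 2) * V i = 0 := by
    have h1 : ∑ l ∈ Finset.range q, (l : R) * ∑ i ∈ Finset.range n, x ^ (l * i) * V i = 0 := by
      apply Finset.sum_eq_zero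
      intro l hl
      rw [Finset.mem_range] at hl
      rcases Nat.eq_zero_or_pos l with h2 | h2
      · rw [h2, Nat.cast_zero, zero_mul]
      · rw [hS l h2 hl, mul_zero]
    simp only [Finset.mul_sum] at h1
    rw [Finset.sum_comm] at h1
    have h2 : ∀ i ∈ Finset.range n, ∑ l ∈ Finset.range q, (l : R) * (x ^ (l * i) * V i) =
        -(x ^ i * (x ^ i - 1) ^ (q - 2) * V i) := by
      intro i _
      have h3 := weighted_sum_char q (x ^ i)
      rw [← neg_mul, ← h3, Finset.sum_mul]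
      apply Finset.sum_congr rfl
      intro l _
      rw [← pow_mul, mul_comm i l]
      ring
    rw [Finset.sum_congr rfl h2, Finset.sum_neg_distrib, neg_eq_zero] at h1
    exact h1
  have hterm : ∀ i : ℕ, x ^ i * (x ^ i - 1) ^ (q - 2) * V i =
      algebraMap (ZMod q) R ((i : ZMod q) ^ (q - 2) * (θ1 y + i)) * z ^ (q - 2) := by
    intro i
    obtain ⟨c, hc⟩ := one_add_pow_lead z i
    obtain ⟨d, hd⟩ := hv ((φ ^ i) y)
    rw [hy1] at hd
    obtain ⟨e, he⟩ : z ∣ ((i : R) + z * c) ^ (q - 2) - (i : R) ^ (q - 2) :=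
      Dvd.dvd.trans ⟨c, by ring⟩ (sub_dvd_pow_sub_pow _ _ _)
    have h1 : x ^ i - 1 = z * ((i : R) + z * c) := by
      change (1 + z) ^ i - 1 = _
      rw [hc]
      ring
    have h2 : (x ^ i - 1) ^ (q - 2) = z ^ (q - 2) * (i : R) ^ (q - 2) := by
      rw [h1, mul_pow]
      have h3 : ((i : R) + z * c) ^ (q - 2) = (i : R) ^ (q - 2) + z * e := by
        linear_combination he
      have h4 : z ^ (q - 2) * z = 0 := by
        rw [← pow_succ, show q - 2 + 1 = q - 1 by omega, hz]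
      rw [h3]
      linear_combination e * h4
    obtain ⟨e', he'⟩ := hxm i
    have h4 : z ^ (q - 2) * z = 0 := by
      rw [← pow_succ, show q - 2 + 1 = q - 1 by omega, hz]
    change x ^ i * (x ^ i - 1) ^ (q - 2) * (r ((φ ^ i) y)).v = _
    rw [h2, hd, he', map_mul, map_pow, map_natCast]
    linear_combination ((i : R) ^ (q - 2) * (e' * (algebraMap (ZMod q) R (θ1 y + i) + z * d) +
      d)) * h4
  simp only [hterm] at hT
  rw [← Finset.sum_mul, ← map_sum] at hT
  have hfin := hz1 (q - 2) (by omega) _ hT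
  have h5 := sum_twist (f := fun i : ℕ => (i : ZMod q) ^ (q - 2) * (θ1 y + i)) (L := q) (μ := 1)
    (by
      intro i
      simp) (n / q)
  rw [Nat.mul_div_cancel' hqn, hfin] at h5
  have h6 : ∑ i ∈ Finset.range q, (i : ZMod q) ^ (q - 2) * (θ1 y + i) = -1 := by
    rw [sum_range_zmod (fun a => a ^ (q - 2) * (θ1 y + a))]
    have h7 : ∀ a : ZMod q, a ^ (q - 2) * (θ1 y + a) = θ1 y * a ^ (q - 2) + a ^ (q - 1) := by
      intro a
      rw [show q - 1 = q - 2 + 1 by omega, pow_succ]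
      ring
    simp only [h7]
    rw [Finset.sum_add_distrib, ← Finset.mul_sum, sum_pow_card_sub_one,
      FiniteField.sum_pow_lt_card_sub_one (K := ZMod q) (q - 2) (by rw [ZMod.card]; omega),
      mul_zero, zero_add]
  rw [h6] at h5
  simp only [one_pow, Finset.sum_const, Finset.card_range, nsmul_eq_mul, mul_one] at h5
  have h8 : ((n / q : ℕ) : ZMod q) = 0 := by linear_combination h5
  rw [ZMod.natCast_eq_zero_iff] at h8
  have h9 : q * q ∣ n := by
    have := mul_dvd_mul_left q h8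
    rwa [Nat.mul_div_cancel' hqn] at this
  exact hq.not_isUnit (hn q h9)

end Pool.Agent.Helper13.Spl
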